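import Mathlib

/-! Definitions for the statement on wild Kummer singularities. -/

namespace R863K

open MvPowerSeries

/-- A `g`-dimensional commutative formal group law over the field `k`, together with its
inversion.  In `F i` the variable `X (Sum.inl j)` is the `j`-th coordinate of the first point and
`X (Sum.inr j)` the `j`-th coordinate of the second point, so `F i` is the power series
`F_i(X, Y)`. -/
structure FormalGroupLaw (k : Type*) [Field k] (g : ℕ) where
  /-- the addition power series `F_i(X, Y)` -/
  F : Fin g → MvPowerSeries (Fin g ⊕ Fin g) k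
  /-- the inversion power series `ι_i(X)` -/
  inv : Fin g → MvPowerSeries (Fin g) k
  /-- `F(0, 0) = 0` -/
  constantCoeff_F : ∀ i, constantCoeff (F i) = 0
  /-- `ι(0) = 0` -/
  constantCoeff_inv : ∀ i, constantCoeff (inv i) = 0
  /-- `F(X, 0) = X` -/
  add_zero : ∀ i, subst (Sum.elim (fun j => (X j : MvPowerSeries (Fin g) k)) (fun _ => 0)) (F i) =
    X i
  /-- `F(0, X) = X` -/
  zero_add : ∀ i, subst (Sum.elim (fun _ => 0) (fun j => (X j : MvPowerSeries (Fin g) k))) (F i) =
    X i
  /-- `F(F(X, Y), Z) = F(X, F(Y, Z))` -/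
  assoc : ∀ i,
    subst (Sum.elim
      (fun j => subst (Sum.elim (fun l => (X (0, l) : MvPowerSeries (Fin 3 × Fin g) k))
        (fun l => X (1, l))) (F j))
      (fun j => X (2, j))) (F i) =
    subst (Sum.elim
      (fun j => (X (0, j) : MvPowerSeries (Fin 3 × Fin g) k))
      (fun j => subst (Sum.elim (fun l => (X (1, l) : MvPowerSeries (Fin 3 × Fin g) k))
        (fun l => X (2, l))) (F j))) (F i)
  /-- `F(X, Y) = F(Y, X)` -/
  comm : ∀ i, subst (Sum.elim (fun j => (X (Sum.inr j) : MvPowerSeries (Fin g ⊕ Fin g) k))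
    (fun j => X (Sum.inl j))) (F i) = F i
  /-- `F(X, ι(X)) = 0` -/
  add_inv : ∀ i, subst (Sum.elim (fun j => (X j : MvPowerSeries (Fin g) k)) inv) (F i) = 0

namespace FormalGroupLaw

variable {k : Type*} [Field k] {g : ℕ}

/-- The `k`-algebra endomorphism `f(X) ↦ f(ι(X))` of `k[[X_1, …, X_g]]` given by the inversion of
the formal group law. -/
noncomputable def inversion (G : FormalGroupLaw k g) :
    MvPowerSeries (Fin g) k →ₐ[k] MvPowerSeries (Fin g) k :=
  substAlgHom (hasSubst_of_constantCoeff_zero G.constantCoeff_inv)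

/-- The duplication power series `[2]_i(X) = F_i(X, X)`. -/
noncomputable def two (G : FormalGroupLaw k g) (i : Fin g) : MvPowerSeries (Fin g) k :=
  subst (Sum.elim (fun j => (X j : MvPowerSeries (Fin g) k)) (fun j => X j)) (G.F i)

/-- `[2]` is an isogeny (finite height at the prime 2): the ideal generated by the components of
`[2](X)` contains a power of the maximal ideal. -/
def TwoIsIsogeny (G : FormalGroupLaw k g) : Prop :=
  ∃ n : ℕ, IsLocalRing.maximalIdeal (MvPowerSeries (Fin g) k) ^ n ≤ Ideal.span (Set.range G.two)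

end FormalGroupLaw

/-- `A` is a Noetherian local ring and its embedding dimension `dim_{A/m} m/m²` equals `e`. -/
def HasEmbeddingDimension (A : Type*) [CommRing A] (e : ℕ) : Prop :=
  IsNoetherianRing A ∧ ∃ _ : IsLocalRing A,
    Module.finrank (IsLocalRing.ResidueField A) (IsLocalRing.CotangentSpace A) = e

end R863K
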