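import Mathlib

/-! The universal exactness statement: on the free `k[[X_1..X_g]]`-module with basis `x_S`,
`S ⊆ {1..g}`, the involution `x_S ↦ ∏_{i ∈ S} (x_i + X_i)` (char 2) satisfies
`ker (ι - 1) = k + im (ι - 1)`. -/

namespace R863K

open MvPowerSeries

variable {k : Type*} [Field k] {g : ℕ}

/-- the free module on the subsets -/
abbrev MM (k : Type*) (g : ℕ) := Finset (Fin g) → MvPowerSeries (Fin g) k

noncomputable section

/-- `X_i`-free part -/
def piF (i : Fin g) : MvPowerSeries (Fin g) k →+ MvPowerSeries (Fin g) k where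
  toFun f := fun γ => if γ i = 0 then coeff γ f else 0
  map_zero' := by
    funext γ
    show (if γ i = 0 then coeff γ (0 : MvPowerSeries (Fin g) k) else 0) = 0
    simp
  map_add' f h := by
    funext γ
    show (if γ i = 0 then coeff γ (f + h) else 0) =
      (if γ i = 0 then coeff γ f else 0) + (if γ i = 0 then coeff γ h else 0)
    split_ifs <;> simp

theorem coeff_piF (i : Fin g) (f : MvPowerSeries (Fin g) k) (γ) :
    coeff γ (piF i f) = if γ i = 0 then coeff γ f else 0 := rfl

/-- quotient by `X_i` -/
def rhF (i : Fin g) : MvPowerSeries (Fin g) k →+ MvPowerSeries (Fin g) k where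
  toFun f := fun γ => coeff (γ + Finsupp.single i 1) f
  map_zero' := by
    funext γ
    show coeff (γ + Finsupp.single i 1) (0 : MvPowerSeries (Fin g) k) = 0
    simp
  map_add' f h := by
    funext γ
    show coeff (γ + Finsupp.single i 1) (f + h) =
      coeff (γ + Finsupp.single i 1) f + coeff (γ + Finsupp.single i 1) h
    simp

theorem coeff_rhF (i : Fin g) (f : MvPowerSeries (Fin g) k) (γ) :
    coeff γ (rhF i f) = coeff (γ + Finsupp.single i 1) f := rfl

theorem coeff_X_mul' (i : Fin g) (f : MvPowerSeries (Fin g) k) (γ : Fin g →₀ ℕ) :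
    coeff γ (X i * f) = if γ i = 0 then 0 else coeff (γ - Finsupp.single i 1) f := by
  classical
  rw [X, coeff_monomial_mul]
  by_cases h : γ i = 0
  · rw [if_pos h, if_neg]
    intro hle
    have := hle i
    simp at this
    omega
  · rw [if_neg h, if_pos, one_mul]
    intro l
    by_cases hl : l = i
    · subst hl; simp; omega
    · simp [Finsupp.single_apply, Ne.symm hl]

theorem piF_rhF (i : Fin g) (f : MvPowerSeries (Fin g) k) : piF i f + X i * rhF i f = f := by
  ext γ
  rw [map_add, coeff_piF, coeff_X_mul', coeff_rhF]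
  split_ifs with h
  · simp
  · rw [zero_add]
    congr 1
    congr 1
    ext l
    by_cases hl : l = i
    · subst hl; simp; omega
    · simp [Finsupp.single_apply, Ne.symm hl]

theorem piF_X_same (i : Fin g) (f : MvPowerSeries (Fin g) k) : piF i (X i * f) = 0 := by
  ext γ
  rw [coeff_piF, coeff_X_mul']
  split_ifs <;> simp

theorem rhF_X_same (i : Fin g) (f : MvPowerSeries (Fin g) k) : rhF i (X i * f) = f := by
  ext γ
  rw [coeff_rhF, coeff_X_mul', if_neg (by simp), add_tsub_cancel_right]

theorem piF_X_ne {i l : Fin g} (h : i ≠ l) (f : MvPowerSeries (Fin g) k) :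
    piF i (X l * f) = X l * piF i f := by
  ext γ
  rw [coeff_piF, coeff_X_mul', coeff_X_mul', coeff_piF]
  have : (γ - Finsupp.single l 1 : Fin g →₀ ℕ) i = γ i := by simp [Finsupp.single_apply, h.symm]
  rw [this]
  split_ifs <;> simp

theorem rhF_X_ne {i l : Fin g} (h : i ≠ l) (f : MvPowerSeries (Fin g) k) :
    rhF i (X l * f) = X l * rhF i f := by
  ext γ
  rw [coeff_rhF, coeff_X_mul', coeff_X_mul', coeff_rhF]
  have : (γ + Finsupp.single i 1 : Fin g →₀ ℕ) l = γ l := by simp [Finsupp.single_apply, h]
  rw [this]
  split_ifs with h0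
  · rfl
  · congr 2
    ext m
    by_cases hm : m = l
    · subst hm; simp [Finsupp.single_apply, h]
    · simp [Finsupp.single_apply, Ne.symm hm]

theorem piF_piF (i : Fin g) (f : MvPowerSeries (Fin g) k) : piF i (piF i f) = piF i f := by
  ext γ
  simp only [coeff_piF]
  split_ifs <;> rfl

theorem piF_comm (i l : Fin g) (f : MvPowerSeries (Fin g) k) :
    piF i (piF l f) = piF l (piF i f) := by
  ext γ
  simp only [coeff_piF]
  split_ifs <;> rfl

/-- `∂_i` -/
def dd (i : Fin g) : MM k g →+ MM k g where
  toFun s U := if i ∈ U then 0 else s (insert i U)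
  map_zero' := by funext U; simp
  map_add' s t := by funext U; simp only [Pi.add_apply]; split_ifs <;> simp

/-- multiplication by `x_i` -/
def mm (i : Fin g) : MM k g →+ MM k g where
  toFun s U := if i ∈ U then s (U.erase i) else 0
  map_zero' := by funext U; simp
  map_add' s t := by funext U; simp only [Pi.add_apply]; split_ifs <;> simp

/-- multiplication by `X_i` -/
def XX (i : Fin g) : MM k g →+ MM k g where
  toFun s U := X i * s U
  map_zero' := by funext U; simp
  map_add' s t := by funext U; simp [mul_add]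

/-- `X_i`-free part -/
def pp (i : Fin g) : MM k g →+ MM k g where
  toFun s U := piF i (s U)
  map_zero' := by funext U; simp
  map_add' s t := by funext U; simp

/-- quotient by `X_i` -/
def rr (i : Fin g) : MM k g →+ MM k g where
  toFun s U := rhF i (s U)
  map_zero' := by funext U; simp
  map_add' s t := by funext U; simp

theorem dd_apply (i : Fin g) (s : MM k g) (U) : dd i s U = if i ∈ U then 0 else s (insert i U) :=
  rfl
theorem mm_apply (i : Fin g) (s : MM k g) (U) : mm i s U = if i ∈ U then s (U.erase i) else 0 :=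
  rfl
theorem XX_apply (i : Fin g) (s : MM k g) (U) : XX i s U = X i * s U := rfl
theorem pp_apply (i : Fin g) (s : MM k g) (U) : pp i s U = piF i (s U) := rfl
theorem rr_apply (i : Fin g) (s : MM k g) (U) : rr i s U = rhF i (s U) := rfl

theorem dd_mm_add (i : Fin g) (s : MM k g) : dd i (mm i s) + mm i (dd i s) = s := by
  funext U
  simp only [Pi.add_apply, dd_apply, mm_apply]
  by_cases h : i ∈ U
  · simp [h, Finset.insert_erase]
  · simp [h, Finset.erase_insert]

theorem dd_dd (i : Fin g) (s : MM k g) : dd i (dd i s) = 0 := by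
  funext U
  simp [dd_apply]

theorem dd_comm {i l : Fin g} (h : i ≠ l) (s : MM k g) : dd i (dd l s) = dd l (dd i s) := by
  funext U
  simp only [dd_apply, Finset.mem_insert, h, h.symm, false_or]
  by_cases h1 : i ∈ U <;> by_cases h2 : l ∈ U <;> simp [h1, h2, Finset.insert_comm]

theorem dd_mm_comm {i l : Fin g} (h : i ≠ l) (s : MM k g) : dd i (mm l s) = mm l (dd i s) := by
  funext U
  simp only [dd_apply, mm_apply, Finset.mem_insert, h, h.symm, false_or, Finset.mem_erase]
  by_cases h1 : i ∈ U <;> by_cases h2 : l ∈ U <;> simp [h1, h2, h]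
  rw [Finset.erase_insert_of_ne h]

theorem dd_XX (i l : Fin g) (s : MM k g) : dd i (XX l s) = XX l (dd i s) := by
  funext U
  simp only [dd_apply, XX_apply]
  split_ifs <;> simp

theorem mm_XX (i l : Fin g) (s : MM k g) : mm i (XX l s) = XX l (mm i s) := by
  funext U
  simp only [mm_apply, XX_apply]
  split_ifs <;> simp

theorem XX_comm (i l : Fin g) (s : MM k g) : XX i (XX l s) = XX l (XX i s) := by
  funext U
  simp only [XX_apply]
  ring

theorem pp_dd (i l : Fin g) (s : MM k g) : pp i (dd l s) = dd l (pp i s) := by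
  funext U
  simp only [dd_apply, pp_apply]
  split_ifs <;> simp

theorem pp_mm (i l : Fin g) (s : MM k g) : pp i (mm l s) = mm l (pp i s) := by
  funext U
  simp only [mm_apply, pp_apply]
  split_ifs <;> simp

theorem rr_dd (i l : Fin g) (s : MM k g) : rr i (dd l s) = dd l (rr i s) := by
  funext U
  simp only [dd_apply, rr_apply]
  split_ifs <;> simp

theorem pp_XX_same (i : Fin g) (s : MM k g) : pp i (XX i s) = 0 := by
  funext U
  simp [pp_apply, XX_apply, piF_X_same]

theorem rr_XX_same (i : Fin g) (s : MM k g) : rr i (XX i s) = s := by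
  funext U
  simp [rr_apply, XX_apply, rhF_X_same]

theorem pp_XX_ne {i l : Fin g} (h : i ≠ l) (s : MM k g) : pp i (XX l s) = XX l (pp i s) := by
  funext U
  simp [pp_apply, XX_apply, piF_X_ne h]

theorem rr_XX_ne {i l : Fin g} (h : i ≠ l) (s : MM k g) : rr i (XX l s) = XX l (rr i s) := by
  funext U
  simp [rr_apply, XX_apply, rhF_X_ne h]

theorem pp_rr (i : Fin g) (s : MM k g) : pp i s + XX i (rr i s) = s := by
  funext U
  simp [pp_apply, XX_apply, rr_apply, piF_rhF]

theorem pp_pp (i : Fin g) (s : MM k g) : pp i (pp i s) = pp i s := by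
  funext U
  simp [pp_apply, piF_piF]

theorem pp_comm (i l : Fin g) (s : MM k g) : pp i (pp l s) = pp l (pp i s) := by
  funext U
  simp only [pp_apply]
  exact piF_comm i l _

/-- `ι` for a list of indices: the composite of the `1 + X_i ∂_i`. -/
def io : List (Fin g) → (MM k g →+ MM k g)
  | [] => AddMonoidHom.id _
  | i :: l => (io l).comp (AddMonoidHom.id _ + (XX i).comp (dd i))

theorem io_nil (s : MM k g) : io [] s = s := rfl
theorem io_cons (i : Fin g) (l) (s : MM k g) : io (i :: l) s = io l (s + XX i (dd i s)) := rfl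

theorem io_XX (i : Fin g) (l : List (Fin g)) : ∀ s : MM k g, io l (XX i s) = XX i (io l s) := by
  induction l with
  | nil => intro s; rfl
  | cons j l ih =>
    intro s
    rw [io_cons, io_cons, dd_XX, XX_comm j i, ← map_add, ih]

theorem io_dd {i : Fin g} {l : List (Fin g)} (h : i ∉ l) :
    ∀ s : MM k g, io l (dd i s) = dd i (io l s) := by
  induction l with
  | nil => intro s; rfl
  | cons j l ih =>
    intro s
    rw [List.mem_cons, not_or] at h
    rw [io_cons, io_cons, ← dd_comm h.1, ← dd_XX, ← map_add, ih h.2]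

theorem io_mm {i : Fin g} {l : List (Fin g)} (h : i ∉ l) :
    ∀ s : MM k g, io l (mm i s) = mm i (io l s) := by
  induction l with
  | nil => intro s; rfl
  | cons j l ih =>
    intro s
    rw [List.mem_cons, not_or] at h
    rw [io_cons, io_cons, dd_mm_comm (Ne.symm h.1), ← mm_XX, ← map_add, ih h.2]

theorem io_pp {i : Fin g} {l : List (Fin g)} (h : i ∉ l) :
    ∀ s : MM k g, io l (pp i s) = pp i (io l s) := by
  induction l with
  | nil => intro s; rfl
  | cons j l ih =>
    intro s
    rw [List.mem_cons, not_or] at h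
    rw [io_cons, io_cons, ← pp_dd, ← pp_XX_ne h.1, ← map_add, ih h.2]

theorem io_rr {i : Fin g} {l : List (Fin g)} (h : i ∉ l) :
    ∀ s : MM k g, io l (rr i s) = rr i (io l s) := by
  induction l with
  | nil => intro s; rfl
  | cons j l ih =>
    intro s
    rw [List.mem_cons, not_or] at h
    rw [io_cons, io_cons, ← rr_dd, ← rr_XX_ne h.1, ← map_add, ih h.2]

variable [CharP k 2]

theorem add_self_ser (f : MvPowerSeries (Fin g) k) : f + f = 0 := by
  ext γ
  rw [map_add, CharTwo.add_self_eq_zero, map_zero]

theorem add_self_M (s : MM k g) : s + s = 0 := by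
  funext U; exact add_self_ser _

theorem exact_io {l : List (Fin g)} (hl : l.Nodup) : ∀ s : MM k g, io l s = s →
    ∃ c h : MM k g, s = c + (io l h + h) ∧ ∀ i ∈ l, dd i c = 0 ∧ pp i c = c := by
  induction l with
  | nil =>
    intro s _
    exact ⟨s, 0, by simp, by simp⟩
  | cons i l ih =>
    intro s hs
    rw [List.nodup_cons] at hl
    obtain ⟨hil, hl⟩ := hl
    rw [io_cons] at hs
    have h1 : io l (dd i s) = dd i s := by
      have := congrArg (dd i) hs
      rw [← io_dd hil, map_add, dd_XX, dd_dd, map_zero, add_zero] at this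
      exact this
    have h2 : io l s + XX i (dd i s) = s := by
      rw [map_add, io_XX, h1] at hs
      exact hs
    have h3 : io l (pp i s) = pp i s := by
      have := congrArg (pp i) h2
      rw [map_add, pp_XX_same, add_zero, ← io_pp hil] at this
      exact this
    have h4 : io l (rr i s) = rr i s + dd i s := by
      have := congrArg (rr i) h2
      rw [map_add, rr_XX_same, ← io_rr hil] at this
      calc io l (rr i s) = (io l (rr i s) + dd i s) + dd i s := by
            rw [add_assoc, add_self_M, add_zero]
        _ = _ := by rw [this]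
    obtain ⟨c', h', hc, hprop⟩ := ih hl _ h3
    refine ⟨dd i (mm i (pp i c')), dd i (mm i (pp i h')) + mm i (rr i s) +
      XX i (dd i (mm i (rr i s))), ?_, ?_⟩
    · have e1 : dd i (dd i (mm i (pp i h')) + mm i (rr i s) + XX i (dd i (mm i (rr i s)))) =
          dd i (mm i (rr i s)) := by
        rw [map_add, map_add, dd_dd, dd_XX, dd_dd, map_zero, zero_add, add_zero]
      rw [io_cons, e1]
      have e2 : dd i (mm i (pp i h')) + mm i (rr i s) + XX i (dd i (mm i (rr i s))) +
          XX i (dd i (mm i (rr i s))) = dd i (mm i (pp i h')) + mm i (rr i s) := by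
        rw [add_assoc, add_self_M, add_zero]
      rw [e2, map_add (io l), io_mm hil, h4, map_add (mm i)]
      have e3 : s = dd i (mm i s) + mm i (dd i s) := (dd_mm_add i s).symm
      have e4 : dd i (mm i s) = dd i (mm i (pp i s)) + XX i (dd i (mm i (rr i s))) := by
        conv_lhs => rw [← pp_rr i s]
        rw [map_add, map_add, mm_XX, dd_XX]
      have e5 : dd i (mm i (pp i s)) = dd i (mm i (pp i c')) +
          (io l (dd i (mm i (pp i h'))) + dd i (mm i (pp i h'))) := by
        conv_lhs => rw [← pp_pp, hc]
        rw [map_add, map_add, map_add, map_add, map_add, map_add, ← io_pp hil, ← io_mm hil,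
          ← io_dd hil]
      have e6 : mm i (rr i s) + mm i (rr i s) = 0 := add_self_M _
      conv_lhs => rw [e3, e4, e5]
      calc _ = dd i (mm i (pp i c')) + (io l (dd i (mm i (pp i h'))) + dd i (mm i (pp i h'))) +
            XX i (dd i (mm i (rr i s))) + mm i (dd i s) + (mm i (rr i s) + mm i (rr i s)) := by
            rw [e6, add_zero]
        _ = _ := by abel
    · intro l' hl'
      rcases List.mem_cons.1 hl' with rfl | hl2
      · exact ⟨dd_dd _ _, by rw [pp_dd, pp_mm, pp_pp]⟩
      · have hne : l' ≠ i := by rintro rfl; exact hil hl2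
        obtain ⟨g1, g2⟩ := hprop l' hl2
        refine ⟨?_, ?_⟩
        · rw [dd_comm hne, dd_mm_comm hne, ← pp_dd, g1]; simp
        · rw [pp_dd, pp_mm, pp_comm, g2]

theorem exact_all (s : MM k g) (hs : io (List.finRange g) s = s) :
    ∃ (c : k) (h : MM k g), s = (fun U => if U = ∅ then C c else 0) +
      (io (List.finRange g) h + h) := by
  obtain ⟨c, h, h1, h2⟩ := exact_io (List.nodup_finRange g) s hs
  refine ⟨coeff 0 (c ∅), h, ?_⟩
  conv_lhs => rw [h1]
  congr 1
  funext U
  split_ifs with hU
  · subst hU
    ext γ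
    rw [coeff_C]
    split_ifs with hγ
    · rw [hγ]
    · have : ∃ i, γ i ≠ 0 := by
        by_contra hcon
        push Not at hcon
        exact hγ (Finsupp.ext hcon)
      obtain ⟨i, hi⟩ := this
      have h3 := (h2 i (List.mem_finRange i)).2
      rw [← h3, pp_apply, coeff_piF, if_neg hi]
  · obtain ⟨i, hi⟩ := Finset.nonempty_iff_ne_empty.2 hU
    have h3 := congrFun (h2 i (List.mem_finRange i)).1 (U.erase i)
    rw [dd_apply, if_neg (by simp), Finset.insert_erase hi] at h3
    exact h3

end

end R863K
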