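import Pool.Agent.R863.Kum.Main4

/-! Involutions of `k[[X_1..X_g]]` in characteristic 2: the embedding dimension of the
invariant ring. -/

set_option linter.unusedSectionVars false

namespace R863K

open MvPowerSeries IsLocalRing

variable {k : Type*} [Field k] {g : ℕ}

noncomputable section

/-- The subalgebra of power series fixed by `σ`. -/
def invSub (σ : PS k g →ₐ[k] PS k g) : Subalgebra k (PS k g) :=
  AlgHom.equalizer σ (AlgHom.id k (PS k g))

theorem mem_invSub {σ : PS k g →ₐ[k] PS k g} {f : PS k g} : f ∈ invSub σ ↔ σ f = f := by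
  rw [invSub, AlgHom.mem_equalizer]; rfl

variable {σ : PS k g →ₐ[k] PS k g}

theorem invSub_isUnit (f : invSub σ) : IsUnit f ↔ constantCoeff (f : PS k g) ≠ 0 := by
  constructor
  · intro h
    have := h.map (invSub σ).val
    have h2 : IsUnit (f : PS k g) := this
    rw [MvPowerSeries.isUnit_iff_constantCoeff, isUnit_iff_ne_zero] at h2
    exact h2
  · intro h
    have h2 : IsUnit (f : PS k g) := by
      rw [MvPowerSeries.isUnit_iff_constantCoeff, isUnit_iff_ne_zero]; exact h
    obtain ⟨v, hv⟩ := isUnit_iff_exists_inv.1 h2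
    have hf := mem_invSub.1 f.2
    have hv2 : σ v = v := by
      have h3 := congrArg σ hv
      rw [map_mul, hf, map_one] at h3
      calc σ v = σ v * ((f : PS k g) * v) := by rw [hv, mul_one]
        _ = ((f : PS k g) * σ v) * v := by ring
        _ = v := by rw [h3, one_mul]
    exact isUnit_iff_exists_inv.2 ⟨⟨v, mem_invSub.2 hv2⟩, Subtype.ext hv⟩

instance : IsLocalRing (invSub σ) := by
  apply IsLocalRing.of_isUnit_or_isUnit_one_sub_self
  intro a
  rw [invSub_isUnit, invSub_isUnit]
  by_cases h : constantCoeff (a : PS k g) = 0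
  · right
    have : ((1 - a : invSub σ) : PS k g) = 1 - (a : PS k g) := rfl
    rw [this, map_sub, h]
    simp
  · left; exact h

theorem mem_mA (f : invSub σ) :
    f ∈ maximalIdeal (invSub σ) ↔ constantCoeff (f : PS k g) = 0 := by
  rw [mem_maximalIdeal, mem_nonunits_iff, invSub_isUnit, not_not]

/-- lies in the square of the maximal ideal of the invariants -/
def P2 (σ : PS k g →ₐ[k] PS k g) (z : PS k g) : Prop :=
  ∃ y ∈ maximalIdeal (invSub σ) ^ 2, (y : PS k g) = z

theorem P2_zero : P2 σ 0 := ⟨0, Ideal.zero_mem _, rfl⟩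

theorem P2_add {a b : PS k g} (ha : P2 σ a) (hb : P2 σ b) : P2 σ (a + b) := by
  obtain ⟨x, hx, rfl⟩ := ha
  obtain ⟨y, hy, rfl⟩ := hb
  exact ⟨x + y, Ideal.add_mem _ hx hy, rfl⟩

theorem P2_sum {ι : Type*} (T : Finset ι) (f : ι → PS k g) (hf : ∀ i ∈ T, P2 σ (f i)) :
    P2 σ (∑ i ∈ T, f i) := by
  classical
  induction T using Finset.induction_on with
  | empty => rw [Finset.sum_empty]; exact P2_zero
  | insert i T hi ih =>
    rw [Finset.sum_insert hi]
    exact P2_add (hf i (Finset.mem_insert_self _ _))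
      (ih fun j hj => hf j (Finset.mem_insert_of_mem hj))

theorem P2_smul (c : k) {a : PS k g} (ha : P2 σ a) : P2 σ (c • a) := by
  obtain ⟨x, hx, rfl⟩ := ha
  refine ⟨c • x, ?_, rfl⟩
  rw [Algebra.smul_def]
  exact Ideal.mul_mem_left _ _ hx

theorem P2_mul {a b : PS k g} (ha : σ a = a) (hb : σ b = b) (ha0 : constantCoeff a = 0)
    (hb0 : constantCoeff b = 0) : P2 σ (a * b) := by
  refine ⟨⟨a, mem_invSub.2 ha⟩ * ⟨b, mem_invSub.2 hb⟩, ?_, rfl⟩
  rw [pow_two]
  exact Ideal.mul_mem_mul ((mem_mA _).2 ha0) ((mem_mA _).2 hb0)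

variable [CharP k 2]

/-- in the span of the `ww U` modulo the square -/
def SP (σ : PS k g →ₐ[k] PS k g) (f : PS k g) : Prop :=
  ∃ κ : Finset (Fin g) → k, P2 σ (f + ∑ U ∈ Finset.univ.erase ∅, κ U • ww σ U)

theorem SP_add {a b : PS k g} (ha : SP σ a) (hb : SP σ b) : SP σ (a + b) := by
  obtain ⟨κ, hκ⟩ := ha
  obtain ⟨κ', hκ'⟩ := hb
  refine ⟨fun U => κ U + κ' U, ?_⟩
  have := P2_add hκ hκ'
  convert this using 1
  simp only [add_smul, Finset.sum_add_distrib]
  ring

theorem SP_P2 {a : PS k g} (ha : P2 σ a) : SP σ a := ⟨fun _ => 0, by simpa using ha⟩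

theorem SP_sum {ι : Type*} (T : Finset ι) (f : ι → PS k g) (hf : ∀ i ∈ T, SP σ (f i)) :
    SP σ (∑ i ∈ T, f i) := by
  classical
  induction T using Finset.induction_on with
  | empty => rw [Finset.sum_empty]; exact SP_P2 P2_zero
  | insert i T hi ih =>
    rw [Finset.sum_insert hi]
    exact SP_add (hf i (Finset.mem_insert_self _ _))
      (ih fun j hj => hf j (Finset.mem_insert_of_mem hj))

theorem SP_smul (c : k) {a : PS k g} (ha : SP σ a) : SP σ (c • a) := by
  obtain ⟨κ, hκ⟩ := ha
  refine ⟨fun U => c * κ U, ?_⟩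
  have := P2_smul c hκ
  convert this using 1
  simp only [mul_smul, smul_add, Finset.smul_sum]

theorem SP_ww {U : Finset (Fin g)} (hU : U ≠ ∅) : SP σ (ww σ U) := by
  refine ⟨fun V => if V = U then 1 else 0, ?_⟩
  rw [Finset.sum_eq_single U]
  · simp only [if_true, one_smul, two0]; exact P2_zero
  · intro V _ hV
    simp only [hV, if_false, zero_smul]
  · intro hh; exact absurd (Finset.mem_erase.2 ⟨hU, Finset.mem_univ _⟩) hh

variable [PerfectRing k 2]

theorem SP_nn (i : Fin g) : SP σ (nn σ i) := by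
  rw [← ww_one]
  exact SP_ww (Finset.singleton_ne_empty i)

theorem SP_two {U : Finset (Fin g)} (hU : 1 < U.card) : SP σ (de σ (xS U)) := by
  rw [← ww_two hU]
  apply SP_ww
  rintro rfl; simp at hU

theorem C_inv (c : k) : σ (C c) = C c := by
  have : (C c : PS k g) = algebraMap k _ c := rfl
  rw [this, AlgHom.commutes]

theorem SP_mul {a b : PS k g} (ha : σ a = a) (hb : σ b = b) (hb0 : constantCoeff b = 0)
    (hS : SP σ b) : SP σ (a * b) := by
  have : a * b = (a - C (constantCoeff a)) * b + constantCoeff a • b := by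
    rw [smul_eq_C_mul]; ring
  rw [this]
  refine SP_add (SP_P2 (P2_mul ?_ hb ?_ hb0)) (SP_smul _ hS)
  · rw [map_sub, ha, C_inv]
  · simp

theorem Inv.SP_ph (h : Inv σ) {c : PS k g} (hc : constantCoeff c = 0) : SP σ (ph h c) := by
  obtain ⟨r, rfl⟩ := exists_X_sum hc
  rw [ph_sum]
  refine SP_sum _ _ fun i _ => ?_
  rw [mul_comm]
  exact SP_mul (s_ph h _) (h.s_nn i) (h.nn_cc i) (SP_nn i)

theorem Inv.de_cc (h : Inv σ) (f : PS k g) : constantCoeff (de σ f) = 0 :=
  (mem_m_iff _).1 (h.fI_le (h.de_mem f))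

theorem Inv.SP_aa (h : Inv σ) (i : Fin g) : SP σ (aa σ i) := by
  classical
  obtain ⟨c, hc⟩ := h.expand (aa σ i)
  have hcI := h.dec _ (fun U => s_ph h (c U)) (by
    rw [← hc]; exact Ideal.subset_span ⟨i, rfl⟩)
  obtain ⟨v, hv⟩ := h.trace (s_ph h (c ∅)) (hcI ∅)
  obtain ⟨e, he⟩ := h.expand v
  set E : Finset (Fin g) → k := fun U => constantCoeff (e U) with hE
  have hν : ph h (c ∅) = ∑ U, ph h (e U) * de σ (xS U) := by
    rw [hv, he, Xh, map_sum]
    exact Finset.sum_congr rfl fun U _ => de_mul_inv (s_ph h _)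
  have hν2 : ph h (c ∅) = ∑ U, E U • de σ (xS U) +
      ∑ U, (ph h (e U) - C (E U)) * de σ (xS U) := by
    rw [hν, ← Finset.sum_add_distrib]
    refine Finset.sum_congr rfl fun U _ => ?_
    rw [smul_eq_C_mul]; ring
  have hcc : ∀ U, constantCoeff (ph h (e U) - C (E U)) = 0 := by
    intro U
    rw [map_sub, ph_cc]; simp [hE]
  -- the part of cardinality one
  have hsplit : ∑ U, E U • de σ (xS U) = ∑ l : Fin g, E {l} • aa σ l +
      ∑ U, (if 1 < U.card then E U • de σ (xS U) else 0) := by
    have h1 : ∀ U : Finset (Fin g), E U • de σ (xS U) =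
        (∑ l : Fin g, if U = {l} then E {l} • aa σ l else 0) +
          (if 1 < U.card then E U • de σ (xS U) else 0) := by
      intro U
      rcases card_cases U with rfl | ⟨l, rfl⟩ | h3
      · have : ∀ l : Fin g, (∅ : Finset (Fin g)) ≠ {l} := fun l =>
          (Finset.singleton_ne_empty l).symm
        simp only [this, if_false, Finset.sum_const_zero, xS_empty, de_inv (map_one σ)]
        simp
      · rw [Finset.sum_eq_single l]
        · have : de σ (xS {l}) = aa σ l := by
            rw [xS, Finset.prod_singleton]; rfl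
          rw [if_pos rfl, if_neg (by simp), add_zero, this]
        · intro l' _ hl'
          rw [if_neg]
          intro h; exact hl' (Finset.singleton_injective h).symm
        · intro hh; exact absurd (Finset.mem_univ _) hh
      · have : ∀ l : Fin g, U ≠ {l} := by
          rintro l rfl; simp at h3
        simp [this, h3]
    rw [Finset.sum_congr rfl (fun U _ => h1 U), Finset.sum_add_distrib, Finset.sum_comm]
    congr 1
    refine Finset.sum_congr rfl fun l _ => ?_
    simp
  have hin : ∑ l : Fin g, (E {l} - if l = i then 1 else 0) • aa σ l ∈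
      maximalIdeal (PS k g) * fI σ := by
    have e1 : ∑ l : Fin g, (E {l} - if l = i then 1 else 0) • aa σ l =
        ∑ l : Fin g, E {l} • aa σ l - aa σ i := by
      simp only [sub_smul, Finset.sum_sub_distrib]
      congr 1
      simp
    have e2 : aa σ i = ph h (c ∅) + ∑ U ∈ Finset.univ.erase ∅, ph h (c U) * xS U := by
      rw [hc, Xh, ← Finset.add_sum_erase _ _ (Finset.mem_univ (∅ : Finset (Fin g))), xS_empty,
        mul_one]
    have e3 : ∑ l : Fin g, (E {l} - if l = i then 1 else 0) • aa σ l =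
        - ∑ U, (if 1 < U.card then E U • de σ (xS U) else 0) -
        ∑ U, (ph h (e U) - C (E U)) * de σ (xS U) -
        ∑ U ∈ Finset.univ.erase ∅, ph h (c U) * xS U := by
      rw [e1]
      conv_lhs => rw [e2, hν2, hsplit]
      ring
    rw [e3]
    refine Ideal.sub_mem _ (Ideal.sub_mem _ (Ideal.neg_mem_iff _ |>.2 ?_) ?_) ?_
    · refine Ideal.sum_mem _ fun U _ => ?_
      split_ifs with h4
      · rw [smul_eq_C_mul]
        exact Ideal.mul_mem_left _ _ (h.de_xS_mem h4)
      · exact Ideal.zero_mem _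
    · refine Ideal.sum_mem _ fun U _ => ?_
      exact Ideal.mul_mem_mul ((mem_m_iff _).2 (hcc U)) (h.de_mem _)
    · refine Ideal.sum_mem _ fun U hU => ?_
      rw [mul_comm (ph h (c U))]
      exact Ideal.mul_mem_mul (xS_mem_m (Finset.mem_erase.1 hU).1) (hcI U)
  have hEl : ∀ l, E {l} = if l = i then 1 else 0 := by
    intro l
    exact sub_eq_zero.1 (h.aa_indep _ hin l)
  have hfin : aa σ i = ph h (c ∅) + ∑ U, (if 1 < U.card then E U • de σ (xS U) else 0) +
      ∑ U, (ph h (e U) - C (E U)) * de σ (xS U) := by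
    have e4 : ∑ l : Fin g, E {l} • aa σ l = aa σ i := by
      simp only [hEl]; simp
    rw [hν2, hsplit, e4]
    have := two0 (∑ U, (if 1 < U.card then E U • de σ (xS U) else 0))
    have h2 := two0 (∑ U, (ph h (e U) - C (E U)) * de σ (xS U))
    calc aa σ i = aa σ i + (∑ U, (if 1 < U.card then E U • de σ (xS U) else 0) +
          ∑ U, (if 1 < U.card then E U • de σ (xS U) else 0)) +
          (∑ U, (ph h (e U) - C (E U)) * de σ (xS U) +
            ∑ U, (ph h (e U) - C (E U)) * de σ (xS U)) := by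
            rw [this, h2, add_zero, add_zero]
      _ = _ := by abel
  rw [hfin]
  refine SP_add (SP_add (h.SP_ph ?_) ?_) (SP_P2 ?_)
  · rw [← ph_cc h]; exact (mem_m_iff _).1 (h.fI_le (hcI ∅))
  · refine SP_sum _ _ fun U _ => ?_
    split_ifs with h4
    · exact SP_smul _ (SP_two h4)
    · exact SP_P2 P2_zero
  · refine P2_sum _ _ fun U _ => ?_
    refine P2_mul ?_ (h.s_de _) (hcc U) (h.de_cc _)
    rw [map_sub, s_ph, C_inv]

theorem Inv.SP_all (h : Inv σ) {f : PS k g} (hf : σ f = f) (h0 : constantCoeff f = 0) :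
    SP σ f := by
  obtain ⟨r, u, rfl⟩ := h.F1 hf h0
  refine SP_add (SP_sum _ _ fun i _ => ?_) ?_
  · rw [mul_comm]
    exact SP_mul (s_ph h _) (h.s_nn i) (h.nn_cc i) (SP_nn i)
  · obtain ⟨c, rfl⟩ := h.expand u
    rw [Xh, map_sum]
    refine SP_sum _ _ fun U _ => ?_
    rw [de_mul_inv (s_ph h _)]
    refine SP_mul (s_ph h _) (h.s_de _) (h.de_cc _) ?_
    rcases card_cases U with rfl | ⟨l, rfl⟩ | h3
    · rw [xS_empty, de_inv (map_one σ)]; exact SP_P2 P2_zero
    · have : de σ (xS {l}) = aa σ l := by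
        rw [xS, Finset.prod_singleton]; rfl
      rw [this]; exact h.SP_aa l
    · exact SP_two h3

theorem Inv.ww_cc (h : Inv σ) {U : Finset (Fin g)} (hU : U ≠ ∅) :
    constantCoeff (ww σ U) = 0 := by
  rcases card_cases U with h0 | ⟨l, rfl⟩ | h3
  · exact absurd h0 hU
  · rw [ww_one]; exact h.nn_cc l
  · rw [ww_two h3]; exact h.de_cc _

/-- an element of the square of the maximal ideal is `∑ n_i z_i` with `z_i` in the maximal
ideal -/
theorem Inv.sq_eq (h : Inv σ) {y : invSub σ} (hy : y ∈ maximalIdeal (invSub σ) ^ 2) :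
    ∃ z : Fin g → PS k g, (∀ i, σ (z i) = z i) ∧ (∀ i, constantCoeff (z i) = 0) ∧
      (y : PS k g) = ∑ i, nn σ i * z i := by
  rw [pow_two] at hy
  refine Submodule.mul_induction_on hy ?_ ?_
  · intro a ha b hb
    have ha1 := mem_invSub.1 a.2
    have hb1 := mem_invSub.1 b.2
    have ha0 := (mem_mA a).1 ha
    have hb0 := (mem_mA b).1 hb
    obtain ⟨r, u, hau⟩ := h.F1 ha1 ha0
    obtain ⟨r', u', hbu⟩ := h.F1 hb1 hb0
    have h1 : u * de σ u' ∈ nI σ := h.fI_le_nI (Ideal.mul_mem_left _ _ (h.de_mem u'))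
    obtain ⟨w, hw⟩ := Ideal.mem_span_range_iff_exists_fun.1 h1
    refine ⟨fun i => ph h (r i) * (b : PS k g) + ph h (r' i) * de σ u + de σ (w i), ?_, ?_, ?_⟩
    · intro i
      rw [map_add, map_add, map_mul, map_mul, s_ph, s_ph, hb1, h.s_de, h.s_de]
    · intro i
      rw [map_add, map_add, map_mul, map_mul, hb0, h.de_cc, h.de_cc]; simp
    · have h2 : de σ u * de σ u' = ∑ i, nn σ i * de σ (w i) := by
        have h3 : de σ (u * de σ u') = de σ u * de σ u' := by
          rw [mul_comm u, de_mul_inv (h.s_de _), mul_comm]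
        rw [← h3, ← hw, map_sum]
        refine Finset.sum_congr rfl fun i _ => ?_
        rw [mul_comm, de_mul_inv (h.s_nn i)]
      show (a : PS k g) * (b : PS k g) = _
      calc (a : PS k g) * (b : PS k g) = (∑ i, nn σ i * ph h (r i)) * (b : PS k g) +
            de σ u * (b : PS k g) := by rw [← add_mul, ← hau]
        _ = (∑ i, nn σ i * ph h (r i)) * (b : PS k g) +
            (de σ u * (∑ i, nn σ i * ph h (r' i)) + de σ u * de σ u') := by
            rw [← mul_add, ← hbu]
        _ = _ := by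
            rw [h2, Finset.sum_mul, Finset.mul_sum, ← Finset.sum_add_distrib,
              ← Finset.sum_add_distrib]
            refine Finset.sum_congr rfl fun i _ => ?_
            ring
  · rintro a b ⟨z, h1, h2, h3⟩ ⟨z', h1', h2', h3'⟩
    refine ⟨fun i => z i + z' i, fun i => by rw [map_add, h1, h1'], fun i => by
      rw [map_add, h2, h2', add_zero], ?_⟩
    show (a : PS k g) + (b : PS k g) = _
    rw [h3, h3', ← Finset.sum_add_distrib]
    exact Finset.sum_congr rfl fun i _ => by ring

/-- the generators as elements of the maximal ideal -/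
def gen (h : Inv σ) (U : {U : Finset (Fin g) // U ≠ ∅}) : maximalIdeal (invSub σ) :=
  ⟨⟨ww σ U.1, mem_invSub.2 (h.s_ww _)⟩, (mem_mA _).2 (h.ww_cc U.2)⟩

theorem residue_lift (x : ResidueField (invSub σ)) :
    ∃ c : k, x = residue (invSub σ) (algebraMap k (invSub σ) c) := by
  obtain ⟨y, rfl⟩ := residue_surjective x
  refine ⟨constantCoeff (y : PS k g), ?_⟩
  rw [← sub_eq_zero, ← map_sub, residue_eq_zero_iff, mem_mA]
  have : ((y - algebraMap k (invSub σ) (constantCoeff (y : PS k g)) : invSub σ) : PS k g) =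
    (y : PS k g) - C (constantCoeff (y : PS k g)) := rfl
  rw [this]; simp

theorem smul_cot (c : k) (x : maximalIdeal (invSub σ)) :
    (residue (invSub σ) (algebraMap k (invSub σ) c)) •
      (maximalIdeal (invSub σ)).toCotangent x =
    (maximalIdeal (invSub σ)).toCotangent (algebraMap k (invSub σ) c • x) := by
  rw [map_smul]
  rfl

theorem Inv.linIndep (h : Inv σ) : LinearIndependent (ResidueField (invSub σ))
    (fun U : {U : Finset (Fin g) // U ≠ ∅} =>
      ((maximalIdeal (invSub σ)).toCotangent (gen h U) : CotangentSpace (invSub σ))) := by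
  classical
  rw [Fintype.linearIndependent_iff]
  intro c hc
  choose κ hκ using fun U => residue_lift (c U)
  have h1 : (maximalIdeal (invSub σ)).toCotangent
      (∑ U, algebraMap k (invSub σ) (κ U) • gen h U) = 0 := by
    rw [map_sum]
    refine Eq.trans ?_ hc
    refine Finset.sum_congr rfl fun U _ => ?_
    rw [hκ U]
    exact (smul_cot _ _).symm
  rw [Ideal.toCotangent_eq_zero] at h1
  obtain ⟨z, hz, hz0, he⟩ := h.sq_eq h1
  set κ' : Finset (Fin g) → k := fun U => if hU : U ≠ ∅ then κ ⟨U, hU⟩ else 0 with hκ'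
  have h2 : ∑ U ∈ Finset.univ.erase ∅, κ' U • ww σ U = ∑ i, nn σ i * z i := by
    rw [← he]
    have e1 : ((∑ U, algebraMap k (invSub σ) (κ U) • gen h U : maximalIdeal (invSub σ)) :
        invSub σ) = ∑ U, algebraMap k (invSub σ) (κ U) * (gen h U : invSub σ) := by
      rw [Submodule.coe_sum]; rfl
    rw [e1, AddSubmonoidClass.coe_finset_sum]
    have e2 : ∀ U : {U : Finset (Fin g) // U ≠ ∅},
        ((algebraMap k (invSub σ) (κ U) * (gen h U : invSub σ) : invSub σ) : PS k g) =
          κ' U.1 • ww σ U.1 := by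
      intro U
      have : κ' U.1 = κ U := by rw [hκ']; simp [U.2]
      rw [this, Algebra.smul_def]
      rfl
    rw [Finset.sum_congr rfl (fun U _ => e2 U)]
    exact Finset.sum_subtype _ (by simp) (fun U => κ' U • ww σ U)
  intro U
  have h3 := h.indep κ' z hz hz0 h2 U.1 U.2
  have : κ' U.1 = κ U := by rw [hκ']; simp [U.2]
  rw [this] at h3
  rw [hκ U, h3, map_zero, map_zero]

theorem Inv.span_top (h : Inv σ) : ⊤ ≤ Submodule.span (ResidueField (invSub σ)) (Set.range
    (fun U : {U : Finset (Fin g) // U ≠ ∅} =>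
      ((maximalIdeal (invSub σ)).toCotangent (gen h U) : CotangentSpace (invSub σ)))) := by
  classical
  intro x _
  obtain ⟨y, rfl⟩ := (maximalIdeal (invSub σ)).toCotangent_surjective x
  obtain ⟨κ, y2, hy2, he⟩ := h.SP_all (mem_invSub.1 y.1.2) ((mem_mA y.1).1 y.2)
  have h1 : (maximalIdeal (invSub σ)).toCotangent (y + ∑ U : {U : Finset (Fin g) // U ≠ ∅},
      algebraMap k (invSub σ) (κ U.1) • gen h U) = 0 := by
    rw [Ideal.toCotangent_eq_zero]
    have e1 : ((y + ∑ U : {U : Finset (Fin g) // U ≠ ∅},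
      algebraMap k (invSub σ) (κ U.1) • gen h U : maximalIdeal (invSub σ)) : invSub σ) = y2 := by
      apply Subtype.ext
      rw [he]
      have e2 : ((y + ∑ U : {U : Finset (Fin g) // U ≠ ∅},
        algebraMap k (invSub σ) (κ U.1) • gen h U : maximalIdeal (invSub σ)) : invSub σ) =
        (y : invSub σ) + ∑ U : {U : Finset (Fin g) // U ≠ ∅},
          algebraMap k (invSub σ) (κ U.1) * (gen h U : invSub σ) := by
        rw [Submodule.coe_add, Submodule.coe_sum]; rfl
      rw [e2]
      have e3 : ((∑ U : {U : Finset (Fin g) // U ≠ ∅},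
          algebraMap k (invSub σ) (κ U.1) * (gen h U : invSub σ) : invSub σ) : PS k g) =
          ∑ U ∈ Finset.univ.erase ∅, κ U • ww σ U := by
        rw [AddSubmonoidClass.coe_finset_sum]
        have e4 : ∀ U : {U : Finset (Fin g) // U ≠ ∅},
            ((algebraMap k (invSub σ) (κ U.1) * (gen h U : invSub σ) : invSub σ) : PS k g) =
              κ U.1 • ww σ U.1 := by
          intro U
          rw [Algebra.smul_def]
          rfl
        rw [Finset.sum_congr rfl (fun U _ => e4 U)]
        exact (Finset.sum_subtype _ (by simp) (fun U => κ U • ww σ U)).symm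
      rw [← e3]; rfl
    rw [e1]; exact hy2
  rw [map_add, map_sum] at h1
  rw [add_eq_zero_iff_eq_neg] at h1
  rw [h1]
  refine Submodule.neg_mem _ (Submodule.sum_mem _ fun U _ => ?_)
  rw [← smul_cot]
  exact Submodule.smul_mem _ _ (Submodule.subset_span ⟨U, rfl⟩)

/-- The embedding dimension of the ring of invariants is `2^g - 1`. -/
theorem Inv.embDim (h : Inv σ) :
    Module.finrank (ResidueField (invSub σ)) (CotangentSpace (invSub σ)) = 2 ^ g - 1 := by
  rw [Module.finrank_eq_card_basis (Module.Basis.mk h.linIndep h.span_top)]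
  rw [Fintype.card_subtype_compl]
  simp

end

end R863K
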