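import Pool.Agent.R863.Kum.Defs
import Pool.Agent.R863.Kum.Main5

/-! The invariants of an involution are Noetherian; reduction of the hypotheses; formal group
laws. -/

set_option linter.unusedSectionVars false

namespace R863K

open MvPowerSeries IsLocalRing

variable {k : Type*} [Field k] {g : ℕ}

noncomputable section

theorem mem_pow_of_coeff {N : ℕ} {f : PS k g}
    (hf : ∀ γ : Fin g →₀ ℕ, Finsupp.degree γ < N → coeff γ f = 0) :
    f ∈ maximalIdeal (PS k g) ^ N := by
  have hX : ∀ i, constantCoeff (X i : PS k g) = 0 := by intro i; simp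
  have h1 := bx_le_pow hX N (trunc_mem N f)
  have h2 : ∑ γ : Fin g → Fin N, monomial (bxe γ) (coeff (bxe γ) f) ∈
      maximalIdeal (PS k g) ^ N := by
    refine Ideal.sum_mem _ fun γ _ => ?_
    by_cases h : Finsupp.degree (bxe γ) < N
    · rw [hf _ h, map_zero]; exact Ideal.zero_mem _
    · push Not at h
      have hm : (monomial (bxe γ) (coeff (bxe γ) f) : PS k g) =
          C (coeff (bxe γ) f) * ∏ i, X i ^ (bxe γ) i := by
        have h1 : (monomial (bxe γ) (1 : k) : PS k g) = ∏ i, X i ^ (bxe γ) i := by
          rw [monomial_one_eq, Finsupp.prod_fintype _ _ (fun i => pow_zero _)]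
        rw [← h1, ← smul_eq_C_mul, ← map_smul, smul_eq_mul, mul_one]
      rw [hm]
      apply Ideal.mul_mem_left
      apply Ideal.pow_le_pow_right h
      have h3 : maximalIdeal (PS k g) ^ Finsupp.degree (bxe γ) =
          ∏ i, maximalIdeal (PS k g) ^ (bxe γ) i := by
        rw [Finset.prod_pow_eq_pow_sum, Finsupp.degree_eq_sum]
      rw [h3]
      exact Ideal.prod_mem_prod fun i _ => Ideal.pow_mem_pow ((mem_m_iff _).2 (by simp)) _
  have := Ideal.add_mem _ h1 h2
  rwa [sub_add_cancel] at this

theorem subst_mem_pow {S : Type*} [Finite S] {u : S → PS k g}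
    (hu : ∀ s, constantCoeff (u s) = 0) {r : MvPowerSeries S k} {N : ℕ}
    (hr : (N : ℕ∞) ≤ order r) : subst u r ∈ maximalIdeal (PS k g) ^ N := by
  apply mem_pow_of_coeff
  intro γ hγ
  apply coeff_of_lt_order
  refine lt_of_lt_of_le ?_ (le_order_subst (hasSubst_of_constantCoeff_zero hu) r)
  have h1 : (1 : ℕ∞) ≤ ⨅ i, (u i).order := by
    refine le_iInf fun i => ?_
    exact one_le_order_iff_constCoeff_eq_zero.2 (hu i)
  calc ((Finsupp.degree γ : ℕ) : ℕ∞) < N := by exact_mod_cast hγ
    _ = 1 * N := (one_mul _).symm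
    _ ≤ _ := mul_le_mul' h1 hr

theorem subst_diff {S : Type*} [Finite S] {u v : S → PS k g}
    (hu : ∀ s, constantCoeff (u s) = 0) (hv : ∀ s, constantCoeff (v s) = 0)
    (f : MvPowerSeries S k) (N : ℕ) :
    subst u f - subst v f ∈ Ideal.span (Set.range fun s => u s - v s) ⊔
      maximalIdeal (PS k g) ^ N := by
  classical
  set p := truncTotal N f with hp
  set r := f - (p : MvPowerSeries S k) with hr
  have hf : f = (p : MvPowerSeries S k) + r := by rw [hr]; ring
  have hro : (N : ℕ∞) ≤ order r := by
    apply nat_le_order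
    intro d hd
    rw [hr, map_sub, MvPolynomial.coeff_coe, hp, coeff_truncTotal _ hd, sub_self]
  have hU := hasSubst_of_constantCoeff_zero hu
  have hV := hasSubst_of_constantCoeff_zero hv
  rw [hf, subst_add hU, subst_add hV, subst_coe, subst_coe]
  have h1 : MvPolynomial.aeval u p - MvPolynomial.aeval v p ∈
      Ideal.span (Set.range fun s => u s - v s) := by
    apply Ideal.Quotient.eq.1
    have h2 : ∀ w : S → PS k g, Ideal.Quotient.mk (Ideal.span (Set.range fun s => u s - v s))
        (MvPolynomial.aeval w p) = MvPolynomial.aeval (fun s =>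
          Ideal.Quotient.mkₐ k (Ideal.span (Set.range fun s => u s - v s)) (w s)) p := by
      intro w
      exact (MvPolynomial.comp_aeval_apply w
        (Ideal.Quotient.mkₐ k (Ideal.span (Set.range fun s => u s - v s))) p)
    rw [h2, h2]
    congr 2
    funext s
    exact Ideal.Quotient.eq.2 (Ideal.subset_span ⟨s, rfl⟩)
  have h3 : MvPolynomial.aeval u p + subst u r - (MvPolynomial.aeval v p + subst v r) =
      (MvPolynomial.aeval u p - MvPolynomial.aeval v p) + (subst u r - subst v r) := by ring
  rw [h3]
  exact Submodule.add_mem_sup h1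
    (Ideal.sub_mem _ (subst_mem_pow hu hro) (subst_mem_pow hv hro))

theorem coeff_one_subst {S : Type*} [Fintype S] {u : S → PS k g}
    (hu : ∀ s, constantCoeff (u s) = 0) (f : MvPowerSeries S k) (l : Fin g) :
    coeff (Finsupp.single l 1) (subst u f) =
      ∑ s, coeff (Finsupp.single s 1) f * coeff (Finsupp.single l 1) (u s) := by
  classical
  rw [coeff_subst (hasSubst_of_constantCoeff_zero hu)]
  rw [finsum_eq_sum_of_support_subset (s := Finset.univ.image fun s => Finsupp.single s 1)]
  · rw [Finset.sum_image]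
    · refine Finset.sum_congr rfl fun s _ => ?_
      rw [smul_eq_mul, Finsupp.prod_single_index (h := fun s e => u s ^ e) (pow_zero _), pow_one]
    · intro a _ b _ hab
      exact (Finsupp.single_left_inj one_ne_zero).1 hab
  · intro d hd
    rw [Function.mem_support] at hd
    by_contra hnot
    apply hd
    have hdeg : Finsupp.degree d ≠ 1 := by
      intro h1
      have h2 : d ∈ Set.range (fun a : S ↦ Finsupp.single a 1) := by
        rw [Finsupp.range_single_one]; exact h1
      apply hnot
      simpa only [Finset.coe_image, Finset.coe_univ, Set.image_univ] using h2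
    rcases Nat.lt_or_gt_of_ne hdeg with h0 | h2
    · have : d = 0 := by
        rw [← Finsupp.degree_eq_zero_iff]; omega
      subst this
      rw [Finsupp.prod_zero_index, coeff_one, if_neg, smul_zero]
      simp
    · have hz : coeff (Finsupp.single l 1) (d.prod fun s e => u s ^ e) = 0 := ?_
      · rw [hz, smul_zero]
      apply coeff_of_lt_order
      have h3 : ((Finsupp.degree d : ℕ) : ℕ∞) ≤ order (d.prod fun s e => u s ^ e) := by
        rw [Finsupp.prod]
        refine le_trans ?_ (le_order_prod _ _)
        rw [Finsupp.degree_apply]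
        push_cast
        refine Finset.sum_le_sum fun s _ => ?_
        exact le_order_pow_of_constantCoeff_eq_zero _ (hu s)
      refine lt_of_lt_of_le ?_ h3
      simp only [Finsupp.degree_single]
      exact_mod_cast h2

/-! ### Reduction of the hypotheses -/

section red

variable [CharP k 2] [PerfectRing k 2] {σ : PS k g →ₐ[k] PS k g}

theorem pow_fg (n : ℕ) : (maximalIdeal (PS k g) ^ n).FG := by
  rw [m_eq]
  exact Submodule.FG.pow ⟨(Set.finite_range fun i => (X i : PS k g)).toFinset, by simp⟩ n

/-- Nakayama reduction -/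
theorem fin_of_le {n : ℕ} {A : Ideal (PS k g)}
    (h : maximalIdeal (PS k g) ^ n ≤ A ⊔ maximalIdeal (PS k g) ^ (n + 1)) :
    maximalIdeal (PS k g) ^ n ≤ A := by
  apply nak (pow_fg n)
  rw [pow_succ'] at h
  exact h

theorem Inv.of_hyp (h1 : ∀ f, σ (σ f) = f)
    (h2 : ∀ f ∈ maximalIdeal (PS k g), σ f - f ∈ maximalIdeal (PS k g) ^ 2)
    (h3 : ∃ n, maximalIdeal (PS k g) ^ n ≤ Ideal.span (Set.range fun f => σ f - f)) :
    Inv σ := by
  have hXm : ∀ i, (X i : PS k g) ∈ maximalIdeal (PS k g) := fun i => (mem_m_iff _).2 (by simp)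
  have hlin : ∀ i, σ (X i) + X i ∈ maximalIdeal (PS k g) ^ 2 := by
    intro i
    rw [← sub_eq_add']
    exact h2 _ (hXm i)
  have hcc : ∀ i, constantCoeff (σ (X i)) = 0 := by
    intro i
    rw [← mem_m_iff]
    have := Ideal.sub_mem _ (Ideal.pow_le_self two_ne_zero (hlin i)) (hXm i)
    rwa [add_sub_cancel_right] at this
  have hX : ∀ i, constantCoeff (X i : PS k g) = 0 := by intro i; simp
  have hσ : ∀ f, σ f = subst (fun i => σ (X i)) f := by
    have : σ = substAlgHom (hasSubst_of_constantCoeff_zero hcc) := by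
      apply algHom_ext'
      · intro i; rw [substAlgHom_X]
      · exact hcc
    intro f
    conv_lhs => rw [this]
    rw [coe_substAlgHom]
  refine ⟨h1, hlin, ?_⟩
  obtain ⟨n, hn⟩ := h3
  refine ⟨n, fin_of_le (le_trans hn ?_)⟩
  rw [Ideal.span_le]
  rintro _ ⟨f, rfl⟩
  have h4 := subst_diff hcc hX f (n + 1)
  have h5 : subst (fun i => (X i : PS k g)) f = f := by
    have := congrFun (subst_self (σ := Fin g) (R := k)) f
    exact this
  rw [h5, ← hσ] at h4
  simp only [sub_eq_add'] at h4 ⊢
  exact h4

end red

/-! ### Noetherianity -/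

section noeth

variable [CharP k 2] [PerfectRing k 2] {σ : PS k g →ₐ[k] PS k g}

theorem Inv.noeth (h : Inv σ) : IsNoetherianRing (invSub σ) := by
  classical
  let N : Subalgebra k (PS k g) := (ph h).range
  have hle : N ≤ invSub σ := by
    rintro _ ⟨f, rfl⟩
    exact mem_invSub.2 (s_ph h f)
  have hN : IsNoetherianRing N :=
    isNoetherianRing_of_surjective (PS k g) N (ph h).rangeRestrict.toRingHom
      (AlgHom.rangeRestrict_surjective (ph h))
  have hfin : Module.Finite N (PS k g) := by
    refine ⟨⟨Finset.univ.image (xS : Finset (Fin g) → PS k g), top_le_iff.1 fun f _ => ?_⟩⟩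
    obtain ⟨c, rfl⟩ := h.expand f
    refine Submodule.sum_mem _ fun U _ => ?_
    have : ph h (c U) * xS U = (⟨ph h (c U), ⟨c U, rfl⟩⟩ : N) • xS U := rfl
    rw [this]
    apply Submodule.smul_mem
    apply Submodule.subset_span
    simp
  have h1 : IsNoetherian N (PS k g) := isNoetherian_of_isNoetherianRing_of_finite N _
  let _ : Algebra N (invSub σ) := (Subalgebra.inclusion hle).toRingHom.toAlgebra
  let v : invSub σ →ₗ[N] PS k g :=
    { toFun := Subtype.val, map_add' := fun _ _ => rfl, map_smul' := fun _ _ => rfl }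
  have h2 : IsNoetherian N (invSub σ) := isNoetherian_of_injective v Subtype.val_injective
  exact isNoetherian_of_tower N h2

end noeth

end

end R863K
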