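import Pool.Agent.R863.Kum.FGL

/-! Formal group laws of finite height in characteristic 2. -/

set_option linter.unusedSectionVars false

namespace R863K

open MvPowerSeries IsLocalRing

variable {k : Type*} [Field k] {g : ℕ}

noncomputable section

namespace FormalGroupLaw

variable (G : FormalGroupLaw k g)

/-- sum of two points -/
def pt (a b : Fin g → PS k g) (i : Fin g) : PS k g := subst (Sum.elim a b) (G.F i)

theorem el_cc {a b : Fin g → PS k g} (ha : ∀ i, constantCoeff (a i) = 0)
    (hb : ∀ i, constantCoeff (b i) = 0) : ∀ s, constantCoeff (Sum.elim a b s) = 0 := by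
  rintro (i | i)
  · exact ha i
  · exact hb i

theorem X_cc : ∀ i : Fin g, constantCoeff (X i : PS k g) = 0 := fun i => by simp

theorem Z_cc : ∀ _ : Fin g, constantCoeff (0 : PS k g) = 0 := fun i => by simp

theorem pt_cc {a b : Fin g → PS k g} (ha : ∀ i, constantCoeff (a i) = 0)
    (hb : ∀ i, constantCoeff (b i) = 0) (i : Fin g) : constantCoeff (G.pt a b i) = 0 :=
  constantCoeff_subst_eq_zero (hasSubst_of_constantCoeff_zero (el_cc ha hb)) (el_cc ha hb)
    (G.constantCoeff_F i)

theorem subst_zero' {a : Fin g → PS k g} (ha : ∀ i, constantCoeff (a i) = 0) :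
    subst a (0 : PS k g) = 0 := by
  rw [← coe_substAlgHom (hasSubst_of_constantCoeff_zero ha), map_zero]

theorem pt_zero {a : Fin g → PS k g} (ha : ∀ i, constantCoeff (a i) = 0) :
    G.pt a (fun _ => 0) = a := by
  funext i
  have h := congrArg (subst a) (G.add_zero i)
  rw [subst_comp_subst_apply (hasSubst_of_constantCoeff_zero (el_cc X_cc Z_cc))
    (hasSubst_of_constantCoeff_zero ha), subst_X (hasSubst_of_constantCoeff_zero ha)] at h
  rw [pt, ← h]
  congr 1
  funext s
  rcases s with j | j
  · simp [subst_X (hasSubst_of_constantCoeff_zero ha)]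
  · simp [subst_zero' ha]

theorem zero_pt {a : Fin g → PS k g} (ha : ∀ i, constantCoeff (a i) = 0) :
    G.pt (fun _ => 0) a = a := by
  funext i
  have h := congrArg (subst a) (G.zero_add i)
  rw [subst_comp_subst_apply (hasSubst_of_constantCoeff_zero (el_cc Z_cc X_cc))
    (hasSubst_of_constantCoeff_zero ha), subst_X (hasSubst_of_constantCoeff_zero ha)] at h
  rw [pt, ← h]
  congr 1
  funext s
  rcases s with j | j
  · simp [subst_zero' ha]
  · simp [subst_X (hasSubst_of_constantCoeff_zero ha)]

theorem pt_inv {a : Fin g → PS k g} (ha : ∀ i, constantCoeff (a i) = 0) :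
    G.pt a (fun i => subst a (G.inv i)) = fun _ => 0 := by
  funext i
  have h := congrArg (subst a) (G.add_inv i)
  rw [subst_comp_subst_apply (hasSubst_of_constantCoeff_zero (el_cc X_cc G.constantCoeff_inv))
    (hasSubst_of_constantCoeff_zero ha), subst_zero' ha] at h
  rw [pt, ← h]
  congr 1
  funext s
  rcases s with j | j
  · simp [subst_X (hasSubst_of_constantCoeff_zero ha)]
  · simp

theorem pt_assoc {a b c : Fin g → PS k g} (ha : ∀ i, constantCoeff (a i) = 0)
    (hb : ∀ i, constantCoeff (b i) = 0) (hc : ∀ i, constantCoeff (c i) = 0) :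
    G.pt (G.pt a b) c = G.pt a (G.pt b c) := by
  funext i
  set w : Fin 3 × Fin g → PS k g := fun p => ![a, b, c] p.1 p.2 with hw
  have hwc : ∀ p, constantCoeff (w p) = 0 := by
    rintro ⟨p, j⟩
    fin_cases p
    · exact ha j
    · exact hb j
    · exact hc j
  have hW := hasSubst_of_constantCoeff_zero hwc
  have hXX : ∀ (p q : Fin 3), ∀ s, constantCoeff (Sum.elim
      (fun l => (X (p, l) : MvPowerSeries (Fin 3 × Fin g) k)) (fun l => X (q, l)) s) = 0 := by
    rintro p q (j | j) <;> simp
  have hS : ∀ (p q : Fin 3) (j : Fin g), constantCoeff (subst (Sum.elim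
      (fun l => (X (p, l) : MvPowerSeries (Fin 3 × Fin g) k)) (fun l => X (q, l))) (G.F j)) = 0 :=
    fun p q j => constantCoeff_subst_eq_zero (hasSubst_of_constantCoeff_zero (hXX p q)) (hXX p q)
      (G.constantCoeff_F j)
  have hin : ∀ (p q : Fin 3) (j : Fin g), subst w (subst (Sum.elim
      (fun l => (X (p, l) : MvPowerSeries (Fin 3 × Fin g) k)) (fun l => X (q, l))) (G.F j)) =
      subst (Sum.elim (fun l => w (p, l)) (fun l => w (q, l))) (G.F j) := by
    intro p q j
    rw [subst_comp_subst_apply (hasSubst_of_constantCoeff_zero (hXX p q)) hW]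
    congr 1
    funext s
    rcases s with l | l
    · simp [subst_X hW]
    · simp [subst_X hW]
  have h := congrArg (subst w) (G.assoc i)
  rw [subst_comp_subst_apply (hasSubst_of_constantCoeff_zero (by
    rintro (j | j)
    · exact hS 0 1 j
    · simp)) hW, subst_comp_subst_apply (hasSubst_of_constantCoeff_zero (by
    rintro (j | j)
    · simp
    · exact hS 1 2 j)) hW] at h
  have e1 : G.pt (G.pt a b) c i = subst (fun s => subst w (Sum.elim
      (fun j => subst (Sum.elim (fun l => (X (0, l) : MvPowerSeries (Fin 3 × Fin g) k))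
        (fun l => X (1, l))) (G.F j)) (fun j => X (2, j)) s)) (G.F i) := by
    rw [pt]
    congr 1
    funext s
    rcases s with j | j
    · simp only [Sum.elim_inl, hin]
      rfl
    · simp only [Sum.elim_inr, subst_X hW]
      rfl
  have e2 : G.pt a (G.pt b c) i = subst (fun s => subst w (Sum.elim
      (fun j => (X (0, j) : MvPowerSeries (Fin 3 × Fin g) k))
      (fun j => subst (Sum.elim (fun l => (X (1, l) : MvPowerSeries (Fin 3 × Fin g) k))
        (fun l => X (2, l))) (G.F j)) s)) (G.F i) := by
    rw [pt]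
    congr 1
    funext s
    rcases s with j | j
    · simp only [Sum.elim_inl, subst_X hW]
      rfl
    · simp only [Sum.elim_inr, hin]
      rfl
  rw [e1, e2]
  exact h

theorem inv_inv (i : Fin g) : subst G.inv (G.inv i) = X i := by
  have hI := G.constantCoeff_inv
  have hI2 : ∀ i, constantCoeff (subst G.inv (G.inv i)) = 0 := fun i =>
    constantCoeff_subst_eq_zero (hasSubst_of_constantCoeff_zero hI) hI (hI i)
  have h1 : G.pt (fun j => X j) G.inv = fun _ => 0 := by
    funext i; exact G.add_inv i
  have h2 := G.pt_inv hI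
  have h3 : (fun i => subst G.inv (G.inv i)) = fun j => (X j : PS k g) := by
    calc (fun i => subst G.inv (G.inv i)) = G.pt (fun _ => 0) (fun i => subst G.inv (G.inv i)) :=
          (G.zero_pt hI2).symm
      _ = G.pt (G.pt (fun j => X j) G.inv) (fun i => subst G.inv (G.inv i)) := by rw [h1]
      _ = G.pt (fun j => X j) (G.pt G.inv (fun i => subst G.inv (G.inv i))) :=
          G.pt_assoc X_cc hI hI2
      _ = G.pt (fun j => X j) (fun _ => 0) := by rw [h2]
      _ = _ := G.pt_zero X_cc
  exact congrFun h3 i

theorem inversion_X (i : Fin g) : G.inversion (X i) = G.inv i := by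
  rw [inversion, substAlgHom_X]

theorem inversion_inversion (f : PS k g) : G.inversion (G.inversion f) = f := by
  have : G.inversion.comp G.inversion = AlgHom.id k (PS k g) := by
    apply algHom_ext'
    · intro i
      rw [AlgHom.comp_apply, inversion_X]
      rw [inversion, coe_substAlgHom]
      exact G.inv_inv i
    · intro i
      rw [AlgHom.comp_apply, inversion_X]
      rw [inversion, coe_substAlgHom, G.inv_inv i]
      simp
  exact DFunLike.congr_fun this f

theorem coeff_X' (i l : Fin g) :
    coeff (Finsupp.single l 1) (X i : PS k g) = if i = l then 1 else 0 := by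
  classical
  rw [coeff_X]
  by_cases h : i = l
  · subst h; simp
  · rw [if_neg h, if_neg]
    intro h2
    exact h ((Finsupp.single_left_inj one_ne_zero).1 h2).symm

theorem lin_inl (i l : Fin g) :
    coeff (Finsupp.single (Sum.inl l) 1) (G.F i) = if i = l then 1 else 0 := by
  have h := congrArg (coeff (Finsupp.single l 1)) (G.add_zero i)
  rw [coeff_one_subst (el_cc X_cc Z_cc), Fintype.sum_sum_type] at h
  simpa [coeff_X'] using h

theorem lin_inr (i l : Fin g) :
    coeff (Finsupp.single (Sum.inr l) 1) (G.F i) = if i = l then 1 else 0 := by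
  have h := congrArg (coeff (Finsupp.single l 1)) (G.zero_add i)
  rw [coeff_one_subst (el_cc Z_cc X_cc), Fintype.sum_sum_type] at h
  simpa [coeff_X'] using h

theorem lin_inv (i l : Fin g) :
    coeff (Finsupp.single l 1) (G.inv i + X i) = 0 := by
  have h := congrArg (coeff (Finsupp.single l 1)) (G.add_inv i)
  rw [coeff_one_subst (el_cc X_cc G.constantCoeff_inv), Fintype.sum_sum_type] at h
  simp only [Sum.elim_inl, Sum.elim_inr, lin_inl, lin_inr, ite_mul, one_mul, zero_mul,
    Finset.sum_ite_eq, Finset.mem_univ, if_true, map_zero] at h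
  rw [map_add, add_comm]
  exact h

variable [CharP k 2] [PerfectRing k 2]

theorem isInv (hG : G.TwoIsIsogeny) : Inv G.inversion := by
  have hlin : ∀ i, G.inversion (X i) + X i ∈ maximalIdeal (PS k g) ^ 2 := by
    intro i
    rw [inversion_X]
    apply mem_pow_of_coeff
    intro γ hγ
    rcases Nat.lt_or_ge (Finsupp.degree γ) 1 with h0 | h1
    · have : γ = 0 := by
        rw [← Finsupp.degree_eq_zero_iff]; omega
      rw [this, coeff_zero_eq_constantCoeff, map_add, G.constantCoeff_inv]
      simp
    · have h2 : γ ∈ Set.range (fun a : Fin g ↦ Finsupp.single a 1) := by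
        rw [Finsupp.range_single_one]
        show Finsupp.degree γ = 1
        omega
      obtain ⟨l, rfl⟩ := h2
      exact G.lin_inv i l
  refine ⟨G.inversion_inversion, hlin, ?_⟩
  obtain ⟨n, hn⟩ := hG
  refine ⟨n, fin_of_le (le_trans hn ?_)⟩
  rw [Ideal.span_le]
  rintro _ ⟨i, rfl⟩
  have h1 := subst_diff (el_cc X_cc X_cc) (el_cc X_cc G.constantCoeff_inv) (G.F i) (n + 1)
  rw [G.add_inv i, sub_zero] at h1
  have h2 : Ideal.span (Set.range fun s => Sum.elim (fun j => (X j : PS k g)) (fun j => X j) s -
      Sum.elim (fun j => X j) G.inv s) ≤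
      Ideal.span (Set.range fun i => G.inversion (X i) + X i) := by
    rw [Ideal.span_le]
    rintro _ ⟨s, rfl⟩
    rcases s with j | j
    · simp
    · have : (fun s => Sum.elim (fun j => (X j : PS k g)) (fun j => X j) s -
          Sum.elim (fun j => X j) G.inv s) (Sum.inr j) = G.inversion (X j) + X j := by
        simp only [Sum.elim_inr]
        rw [sub_eq_add', inversion_X, add_comm]
      rw [this]
      exact Ideal.subset_span ⟨j, rfl⟩
  have h3 : ∀ A B C : Ideal (PS k g), A ≤ B → A ⊔ C ≤ B ⊔ C := fun A B C h => sup_le_sup_right h C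
  exact h3 _ _ _ h2 h1

end FormalGroupLaw

theorem Inv.hasEmb [CharP k 2] [PerfectRing k 2] {σ : PS k g →ₐ[k] PS k g} (h : Inv σ) :
    HasEmbeddingDimension (AlgHom.equalizer σ (AlgHom.id k (PS k g))) (2 ^ g - 1) :=
  ⟨h.noeth, inferInstanceAs (IsLocalRing (invSub σ)), h.embDim⟩

end

end R863K
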