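import Mathlib

/-! Power series rings over perfect fields of characteristic 2: an `m`-primary ideal generated by
`g` elements `b_i` of `R = k[[X_1..X_g]]`; `R` is free over `k[[b_1..b_g]]`. -/

namespace R863K

open MvPowerSeries

variable {k : Type*} [Field k] {g : ℕ}

/-- The ideal generated by the `q`-th powers of the `b i`. -/
noncomputable def bx (b : Fin g → MvPowerSeries (Fin g) k) (q : ℕ) : Ideal (MvPowerSeries (Fin g) k) :=
  Ideal.span (Set.range fun i => b i ^ q)

theorem mem_spanX (q : ℕ) (T : Finset (Fin g)) : ∀ (s : MvPowerSeries (Fin g) k),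
    (∀ γ : Fin g →₀ ℕ, (∀ i ∈ T, γ i < q) → coeff γ s = 0) →
    s ∈ bx (fun i => (X i : MvPowerSeries (Fin g) k)) q := by
  classical
  induction T using Finset.induction_on with
  | empty =>
    intro s hs
    have : s = 0 := by
      ext γ
      simpa using hs γ (by simp)
    rw [this]; exact Ideal.zero_mem _
  | insert i T hi ih =>
    intro s hs
    set s' : MvPowerSeries (Fin g) k := fun γ => if q ≤ γ i then coeff γ s else 0 with hs'
    have hc' : ∀ γ, coeff γ s' = if q ≤ γ i then coeff γ s else 0 := fun γ => rfl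
    have h1 : s' ∈ bx (fun i => (X i : MvPowerSeries (Fin g) k)) q := by
      have : (X i : MvPowerSeries (Fin g) k) ^ q ∣ s' := by
        rw [X_pow_dvd_iff]
        intro m hm
        rw [hc', if_neg (by omega)]
      obtain ⟨r, hr⟩ := this
      rw [hr]
      exact Ideal.mul_mem_right _ _ (Ideal.subset_span ⟨i, rfl⟩)
    have h2 : s - s' ∈ bx (fun i => (X i : MvPowerSeries (Fin g) k)) q := by
      apply ih
      intro γ hγ
      rw [map_sub, hc']
      split_ifs with h
      · simp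
      · rw [hs γ, sub_zero]
        intro l hl
        rcases Finset.mem_insert.1 hl with rfl | hl
        · omega
        · exact hγ l hl
    have := Ideal.add_mem _ h1 h2
    simpa using this

theorem mem_spanX' (q : ℕ) (s : MvPowerSeries (Fin g) k)
    (hs : ∀ γ : Fin g →₀ ℕ, (∀ i, γ i < q) → coeff γ s = 0) :
    s ∈ bx (fun i => (X i : MvPowerSeries (Fin g) k)) q :=
  mem_spanX q Finset.univ s (fun γ hγ => hs γ (fun i => hγ i (Finset.mem_univ i)))

theorem hasS {b : Fin g → MvPowerSeries (Fin g) k} (hb : ∀ i, constantCoeff (b i) = 0) :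
    HasSubst b := hasSubst_of_constantCoeff_zero hb

theorem subst_mem_bx {b : Fin g → MvPowerSeries (Fin g) k} (hb : ∀ i, constantCoeff (b i) = 0)
    (q : ℕ) {s : MvPowerSeries (Fin g) k}
    (hs : s ∈ bx (fun i => (X i : MvPowerSeries (Fin g) k)) q) :
    substAlgHom (hasS hb) s ∈ bx b q := by
  have h := Ideal.mem_map_of_mem (substAlgHom (hasS hb)).toRingHom hs
  rw [bx, Ideal.map_span] at h
  refine Ideal.span_mono ?_ h
  rintro _ ⟨_, ⟨i, rfl⟩, rfl⟩
  refine ⟨i, ?_⟩
  show b i ^ q = substAlgHom (hasS hb) (X i ^ q)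
  rw [map_pow, substAlgHom_X]

/-- exponent vector of a box index -/
noncomputable def bxe {q : ℕ} (γ : Fin g → Fin q) : Fin g →₀ ℕ :=
  Finsupp.equivFunOnFinite.symm (fun i => (γ i : ℕ))

@[simp] theorem bxe_apply {q : ℕ} (γ : Fin g → Fin q) (i : Fin g) : bxe γ i = (γ i : ℕ) := rfl

theorem bxe_inj {q : ℕ} {γ γ' : Fin g → Fin q} (h : bxe γ = bxe γ') : γ = γ' := by
  funext i
  have := DFunLike.congr_fun h i
  simp at this
  exact Fin.ext this

theorem trunc_mem (q : ℕ) (s : MvPowerSeries (Fin g) k) :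
    s - ∑ γ : Fin g → Fin q, monomial (bxe γ) (coeff (bxe γ) s) ∈
      bx (fun i => (X i : MvPowerSeries (Fin g) k)) q := by
  classical
  apply mem_spanX'
  intro δ hδ
  rw [map_sub, map_sum]
  have hδ' : bxe (fun i => (⟨δ i, hδ i⟩ : Fin q)) = δ := by
    ext i; simp
  rw [Finset.sum_eq_single (fun i => (⟨δ i, hδ i⟩ : Fin q))]
  · rw [hδ', coeff_monomial_same]; simp
  · intro γ _ hγ
    rw [coeff_monomial_ne]
    intro h
    apply hγ
    rw [← hδ'] at h
    exact (bxe_inj h).symm
  · intro h; exact absurd (Finset.mem_univ _) h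

theorem subst_monomial' {b : Fin g → MvPowerSeries (Fin g) k}
    (hb : ∀ i, constantCoeff (b i) = 0) (e : Fin g →₀ ℕ) (r : k) :
    substAlgHom (hasS hb) (monomial e r) = r • ∏ i, b i ^ e i := by
  rw [substAlgHom_monomial, Finsupp.prod_fintype _ _ (fun i => pow_zero _), Algebra.smul_def]

theorem substTrunc {b : Fin g → MvPowerSeries (Fin g) k} (hb : ∀ i, constantCoeff (b i) = 0)
    (q : ℕ) (s : MvPowerSeries (Fin g) k) :
    substAlgHom (hasS hb) s - ∑ γ : Fin g → Fin q, (coeff (bxe γ) s) • ∏ i, b i ^ (γ i : ℕ) ∈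
      bx b q := by
  have h := subst_mem_bx hb q (trunc_mem q s)
  rw [map_sub, map_sum] at h
  simpa [subst_monomial' hb] using h

theorem coeff_mem_bx {b : Fin g → MvPowerSeries (Fin g) k} (hb : ∀ i, constantCoeff (b i) = 0)
    (q : ℕ) {f : MvPowerSeries (Fin g) k} (hf : f ∈ bx b q) (γ : Fin g →₀ ℕ)
    (hγ : Finsupp.degree γ < q) : coeff γ f = 0 := by
  rw [bx] at hf
  rw [Ideal.mem_span_range_iff_exists_fun] at hf
  obtain ⟨c, rfl⟩ := hf
  rw [map_sum]
  apply Finset.sum_eq_zero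
  intro i _
  apply coeff_of_lt_order
  refine lt_of_lt_of_le ?_ le_order_mul
  refine lt_of_lt_of_le ?_ (le_add_left (le_order_pow_of_constantCoeff_eq_zero q (hb i)))
  exact_mod_cast hγ

theorem eq_zero_of_bx {b : Fin g → MvPowerSeries (Fin g) k} (hb : ∀ i, constantCoeff (b i) = 0)
    {f : MvPowerSeries (Fin g) k} (hf : ∀ e : ℕ, f ∈ bx b (2 ^ e)) : f = 0 := by
  ext γ
  rw [coeff_mem_bx hb (2 ^ Finsupp.degree γ) (hf _) γ Nat.lt_two_pow_self]
  simp

theorem bx_anti (b : Fin g → MvPowerSeries (Fin g) k) {q q' : ℕ} (h : q ≤ q') :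
    bx b q' ≤ bx b q := by
  rw [bx, Ideal.span_le]
  rintro _ ⟨i, rfl⟩
  obtain ⟨r, rfl⟩ := Nat.exists_eq_add_of_le h
  simp only [pow_add]
  exact Ideal.mul_mem_right _ _ (Ideal.subset_span ⟨i, rfl⟩)

theorem pow_le_bx (b : Fin g → MvPowerSeries (Fin g) k) (q : ℕ) :
    ∃ N, (Ideal.span (Set.range b)) ^ N ≤ bx b q := by
  apply Ideal.exists_pow_le_of_le_radical_of_fg
  · rw [Ideal.span_le]
    rintro _ ⟨i, rfl⟩
    exact ⟨q, Ideal.subset_span ⟨i, rfl⟩⟩
  · exact ⟨(Set.finite_range b).toFinset, by simp⟩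

/-! ### Cartier operators -/

section cartier

variable [CharP k 2] [PerfectRing k 2]

/-- The Cartier operator `f = ∑_γ x^γ (E_γ f)^q`, `q = 2^e`. -/
noncomputable def Ca (e : ℕ) (γ : Fin g → Fin (2 ^ e)) (f : MvPowerSeries (Fin g) k) :
    MvPowerSeries (Fin g) k :=
  fun α => (iterateFrobeniusEquiv k 2 e).symm (coeff ((2 ^ e) • α + bxe γ) f)

theorem coeff_Ca (e : ℕ) (γ : Fin g → Fin (2 ^ e)) (f : MvPowerSeries (Fin g) k)
    (α : Fin g →₀ ℕ) :
    coeff α (Ca e γ f) = (iterateFrobeniusEquiv k 2 e).symm (coeff ((2 ^ e) • α + bxe γ) f) := rfl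

theorem Ca_add (e : ℕ) (γ : Fin g → Fin (2 ^ e)) (f h : MvPowerSeries (Fin g) k) :
    Ca e γ (f + h) = Ca e γ f + Ca e γ h := by
  ext α
  simp [coeff_Ca]

theorem Ca_sum {ι : Type*} (e : ℕ) (γ : Fin g → Fin (2 ^ e)) (t : Finset ι)
    (f : ι → MvPowerSeries (Fin g) k) :
    Ca e γ (∑ i ∈ t, f i) = ∑ i ∈ t, Ca e γ (f i) := by
  ext α
  simp [coeff_Ca, map_sum]

theorem Ca_pow_mul (e : ℕ) (γ : Fin g → Fin (2 ^ e)) (h f : MvPowerSeries (Fin g) k) :
    Ca e γ (h ^ (2 ^ e) * f) = h * Ca e γ f := by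
  classical
  ext α
  have h2 : (2 : ℕ) ≠ 0 := two_ne_zero
  rw [coeff_Ca, coeff_mul, coeff_mul, map_sum]
  symm
  apply Finset.sum_of_injOn (fun p : (Fin g →₀ ℕ) × (Fin g →₀ ℕ) =>
    ((2 ^ e) • p.1, (2 ^ e) • p.2 + bxe γ))
  · rintro ⟨a, b⟩ _ ⟨c, d⟩ _ hab
    simp only [Prod.mk.injEq, add_left_inj] at hab
    have h0 : (2 ^ e : ℕ) ≠ 0 := by positivity
    have key : ∀ u v : Fin g →₀ ℕ, (2 ^ e) • u = (2 ^ e) • v → u = v := by
      intro u v huv
      ext i
      have := DFunLike.congr_fun huv i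
      simp only [Finsupp.smul_apply, smul_eq_mul] at this
      exact Nat.eq_of_mul_eq_mul_left (by positivity) this
    exact Prod.ext (key _ _ hab.1) (key _ _ hab.2)
  · rintro ⟨a, b⟩ hab
    simp only [Finset.mem_coe, Finset.HasAntidiagonal.mem_antidiagonal] at hab ⊢
    rw [← hab]
    ext i; simp; ring
  · rintro ⟨a, b⟩ hab hnot
    simp only [Finset.HasAntidiagonal.mem_antidiagonal] at hab
    suffices coeff a (h ^ 2 ^ e) = 0 by rw [this]; simp
    rw [← map_iterateFrobenius_expand 2 h2 h e, coeff_map]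
    by_cases hd : ∀ i, 2 ^ e ∣ a i
    · exfalso
      apply hnot
      choose c hc using hd
      have ha : a = (2 ^ e) • (Finsupp.equivFunOnFinite.symm c) := by
        ext i; simp [hc i]
      have hle : ∀ i, c i ≤ α i := by
        intro i
        have h1 := DFunLike.congr_fun hab i
        simp only [Finsupp.add_apply, Finsupp.smul_apply, smul_eq_mul, bxe_apply, hc i] at h1
        have h2 := (γ i).2
        by_contra hlt
        push Not at hlt
        have : 2 ^ e * (α i + 1) ≤ 2 ^ e * c i := Nat.mul_le_mul_left _ hlt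
        nlinarith
      have hle' : Finsupp.equivFunOnFinite.symm c ≤ α := fun i => hle i
      refine ⟨(Finsupp.equivFunOnFinite.symm c, α - Finsupp.equivFunOnFinite.symm c), ?_, ?_⟩
      · simp only [Finset.mem_coe, Finset.HasAntidiagonal.mem_antidiagonal]
        exact add_tsub_cancel_of_le hle'
      · refine Prod.ext ha.symm ?_
        ext i
        have h1 := DFunLike.congr_fun hab i
        have h3 := hle i
        simp only [Finsupp.add_apply, Finsupp.smul_apply, smul_eq_mul, bxe_apply, hc i,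
          Finsupp.tsub_apply, Finsupp.equivFunOnFinite_symm_apply_apply] at h1 ⊢
        obtain ⟨t, ht⟩ := Nat.exists_eq_add_of_le h3
        rw [ht] at h1 ⊢
        simp only [add_tsub_cancel_left]
        nlinarith
    · push Not at hd
      obtain ⟨i, hi⟩ := hd
      rw [coeff_expand_of_not_dvd _ _ _ hi, map_zero]
  · rintro ⟨a, b⟩ hab
    simp only
    rw [← map_iterateFrobenius_expand 2 h2 h e, coeff_map, coeff_expand_smul, coeff_Ca, map_mul]
    congr 1
    exact ((iterateFrobeniusEquiv k 2 e).symm_apply_apply (coeff a h)).symm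

theorem Ca_monomial (e : ℕ) (γ γ' : Fin g → Fin (2 ^ e)) (c : k) :
    Ca e γ (monomial (bxe γ') c) =
      if γ = γ' then C ((iterateFrobeniusEquiv k 2 e).symm c) else 0 := by
  classical
  ext α
  rw [coeff_Ca, coeff_monomial]
  by_cases h : γ = γ'
  · subst h
    rw [if_pos rfl, coeff_C]
    by_cases hα : α = 0
    · subst hα; simp
    · rw [if_neg hα, if_neg, map_zero]
      intro h'
      apply hα
      ext i
      have := DFunLike.congr_fun h' i
      simp at this
      simpa using this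
  · rw [if_neg h, if_neg]
    · simp
    · intro h'
      apply h
      funext i
      have := DFunLike.congr_fun h' i
      simp only [Finsupp.add_apply, Finsupp.smul_apply, smul_eq_mul, bxe_apply] at this
      have h1 := (γ' i).2
      have h2 := (γ i).2
      have : α i = 0 := by
        by_contra h0
        have : 2 ^ e * 1 ≤ 2 ^ e * α i := Nat.mul_le_mul_left _ (by omega)
        omega
      apply Fin.ext
      simp_all

end cartier

/-! ### Freeness -/

section free

variable {J : Type*} [Fintype J]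

/-- `e` is (a lift of) a basis of `R/(b)`. -/
structure IsB (b : Fin g → MvPowerSeries (Fin g) k) (e : J → MvPowerSeries (Fin g) k) : Prop where
  cc : ∀ i, constantCoeff (b i) = 0
  span : ∀ f, ∃ c : J → k, f - ∑ j, c j • e j ∈ Ideal.span (Set.range b)
  indep : ∀ c : J → k, ∑ j, c j • e j ∈ Ideal.span (Set.range b) → ∀ j, c j = 0

/-- `Θ(s) = ∑_j s_j(b) e_j`. -/
noncomputable def Th {b : Fin g → MvPowerSeries (Fin g) k} (hb : ∀ i, constantCoeff (b i) = 0)
    (e : J → MvPowerSeries (Fin g) k) (s : J → MvPowerSeries (Fin g) k) : MvPowerSeries (Fin g) k :=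
  ∑ j, substAlgHom (hasS hb) (s j) * e j

variable {b : Fin g → MvPowerSeries (Fin g) k} (hb : ∀ i, constantCoeff (b i) = 0)
    (e : J → MvPowerSeries (Fin g) k)

theorem Th_add (s t : J → MvPowerSeries (Fin g) k) :
    Th hb e (fun j => s j + t j) = Th hb e s + Th hb e t := by
  simp only [Th, map_add, add_mul, Finset.sum_add_distrib]

theorem Th_sub (s t : J → MvPowerSeries (Fin g) k) :
    Th hb e (fun j => s j - t j) = Th hb e s - Th hb e t := by
  simp only [Th, map_sub, sub_mul, Finset.sum_sub_distrib]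

theorem Th_sum {ι : Type*} (T : Finset ι) (s : ι → J → MvPowerSeries (Fin g) k) :
    Th hb e (fun j => ∑ i ∈ T, s i j) = ∑ i ∈ T, Th hb e (s i) := by
  simp only [Th, map_sum, Finset.sum_mul]
  rw [Finset.sum_comm]

theorem Th_X (i : Fin g) (s : J → MvPowerSeries (Fin g) k) :
    Th hb e (fun j => X i * s j) = b i * Th hb e s := by
  simp only [Th, map_mul, substAlgHom_X, Finset.mul_sum, mul_assoc]

theorem Th_C (c : J → k) :
    Th hb e (fun j => C (c j)) = ∑ j, c j • e j := by
  simp only [Th]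
  refine Finset.sum_congr rfl fun j _ => ?_
  have : (C (c j) : MvPowerSeries (Fin g) k) = algebraMap k _ (c j) := rfl
  rw [this, AlgHom.commutes, Algebra.smul_def]

theorem Th_approx (h : IsB b e) (N : ℕ) : ∀ f, ∃ s, f - Th h.cc e s ∈
    (Ideal.span (Set.range b)) ^ N := by
  induction N with
  | zero => intro f; exact ⟨fun _ => 0, by simp⟩
  | succ N ih =>
    intro f
    obtain ⟨c, hc⟩ := h.span f
    obtain ⟨r, hr⟩ := Ideal.mem_span_range_iff_exists_fun.1 hc
    choose s hs using fun i => ih (r i)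
    refine ⟨fun j => C (c j) + ∑ i, X i * s i j, ?_⟩
    rw [Th_add, Th_C, Th_sum, ← sub_sub, ← hr, ← Finset.sum_sub_distrib]
    refine Ideal.sum_mem _ fun i _ => ?_
    rw [Th_X, mul_comm (r i), ← mul_sub, pow_succ']
    exact Ideal.mul_mem_mul (Ideal.subset_span ⟨i, rfl⟩) (hs i)

theorem Th_trunc (q : ℕ) (s : J → MvPowerSeries (Fin g) k) :
    Th hb e s - ∑ p : (Fin g → Fin q) × J, (coeff (bxe p.1) (s p.2)) •
      ((∏ i, b i ^ (p.1 i : ℕ)) * e p.2) ∈ bx b q := by
  rw [Fintype.sum_prod_type_right, Th, ← Finset.sum_sub_distrib]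
  refine Ideal.sum_mem _ fun j _ => ?_
  have h := substTrunc hb q (s j)
  have h2 := Ideal.mul_mem_right (e j) _ h
  rw [sub_mul, Finset.sum_mul] at h2
  simpa [smul_mul_assoc] using h2

theorem Th_mem_bx (q : ℕ) {s : J → MvPowerSeries (Fin g) k}
    (hs : ∀ j, ∀ γ : Fin g →₀ ℕ, (∀ i, γ i < q) → coeff γ (s j) = 0) : Th hb e s ∈ bx b q := by
  refine Ideal.sum_mem _ fun j _ => Ideal.mul_mem_right _ _ ?_
  exact subst_mem_bx hb q (mem_spanX' q _ (hs j))

variable [CharP k 2] [PerfectRing k 2]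

theorem Th_box (h : IsB b e) (E : ℕ) (s : J → MvPowerSeries (Fin g) k)
    (hs : Th h.cc e s ∈ bx b (2 ^ E)) : ∀ (γ : Fin g → Fin (2 ^ E)) (j : J),
    coeff (bxe γ) (s j) = 0 := by
  classical
  set q := 2 ^ E with hq
  let V := MvPowerSeries (Fin g) k ⧸ bx b q
  let v : (Fin g → Fin q) × J → V := fun p =>
    Ideal.Quotient.mkₐ k (bx b q) ((∏ i, b i ^ (p.1 i : ℕ)) * e p.2)
  let w : (Fin g → Fin q) × J → V := fun p =>
    Ideal.Quotient.mkₐ k (bx b q) (monomial (bxe p.1) 1 * (e p.2) ^ q)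
  have hspan : ⊤ ≤ Submodule.span k (Set.range v) := by
    intro x _
    obtain ⟨f, rfl⟩ := Ideal.Quotient.mkₐ_surjective k (bx b q) x
    obtain ⟨N, hN⟩ := pow_le_bx b q
    obtain ⟨s, hs⟩ := Th_approx e h N f
    have h1 := Ideal.add_mem _ (hN hs) (Th_trunc h.cc e q s)
    rw [sub_add_sub_cancel] at h1
    have h2 : Ideal.Quotient.mkₐ k (bx b q) f = ∑ p : (Fin g → Fin q) × J,
        (coeff (bxe p.1) (s p.2)) • v p := by
      have := Ideal.Quotient.eq.2 h1
      have h3 : Ideal.Quotient.mkₐ k (bx b q) f = Ideal.Quotient.mkₐ k (bx b q)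
        (∑ p : (Fin g → Fin q) × J, (coeff (bxe p.1) (s p.2)) •
          ((∏ i, b i ^ (p.1 i : ℕ)) * e p.2)) := this
      rw [h3, map_sum]
      refine Finset.sum_congr rfl fun p _ => ?_
      rw [map_smul]
    rw [h2]
    exact Submodule.sum_mem _ fun p _ => Submodule.smul_mem _ _ (Submodule.subset_span ⟨p, rfl⟩)
  have hindep : LinearIndependent k w := by
    rw [Fintype.linearIndependent_iff]
    intro c hc
    have h1 : Ideal.Quotient.mkₐ k (bx b q) (∑ p : (Fin g → Fin q) × J,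
        c p • (monomial (bxe p.1) 1 * (e p.2) ^ q)) = 0 := by
      rw [map_sum, ← hc]
      refine Finset.sum_congr rfl fun p _ => ?_
      rw [map_smul]
    have h2 : (∑ p : (Fin g → Fin q) × J,
        c p • (monomial (bxe p.1) 1 * (e p.2) ^ q)) ∈ bx b q := Ideal.Quotient.eq_zero_iff_mem.1 h1
    obtain ⟨r, hr⟩ := Ideal.mem_span_range_iff_exists_fun.1 h2
    rintro ⟨γ0, j0⟩
    have h3 := congrArg (Ca E γ0) hr
    rw [Ca_sum, Ca_sum] at h3
    have h4 : ∀ p : (Fin g → Fin q) × J,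
        Ca E γ0 (c p • (monomial (bxe p.1) 1 * (e p.2) ^ q)) =
        if γ0 = p.1 then (iterateFrobeniusEquiv k 2 E).symm (c p) • e p.2 else 0 := by
      intro p
      have : c p • (monomial (bxe p.1) (1 : k) * (e p.2) ^ q) =
          (e p.2) ^ (2 ^ E) * monomial (bxe p.1) (c p) := by
        rw [mul_comm, ← mul_smul_comm, ← map_smul, smul_eq_mul, mul_one]
      rw [this, Ca_pow_mul, Ca_monomial]
      split_ifs
      · rw [mul_comm, smul_eq_C_mul]
      · simp
    have h5 : ∀ i, Ca E γ0 (r i * b i ^ q) = Ca E γ0 (r i) * b i := by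
      intro i
      rw [mul_comm, hq, Ca_pow_mul, mul_comm]
    simp only [h4, h5] at h3
    rw [Fintype.sum_prod_type_right] at h3
    simp only [Finset.sum_ite_eq, Finset.mem_univ, if_true] at h3
    have h6 : ∑ j, (iterateFrobeniusEquiv k 2 E).symm (c (γ0, j)) • e j ∈
        Ideal.span (Set.range b) := by
      rw [← h3]
      exact Ideal.sum_mem _ fun i _ => Ideal.mul_mem_left _ _ (Ideal.subset_span ⟨i, rfl⟩)
    have h7 := h.indep _ h6 j0
    simpa using h7
  have : Module.Finite k V := ⟨by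
    rw [← top_le_iff.1 hspan]; exact Submodule.fg_span (Set.finite_range v)⟩
  have hcard : Fintype.card ((Fin g → Fin q) × J) = Module.finrank k V := by
    apply le_antisymm
    · exact hindep.fintype_card_le_finrank
    · have := finrank_range_le_card (R := k) v
      rwa [Set.finrank, top_le_iff.1 hspan, finrank_top] at this
  have hli := linearIndependent_of_top_le_span_of_card_eq_finrank hspan hcard
  have h1 := Ideal.sub_mem _ hs (Th_trunc h.cc e q s)
  rw [sub_sub_cancel] at h1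
  have h2 : Ideal.Quotient.mkₐ k (bx b q) (∑ p : (Fin g → Fin q) × J,
      (coeff (bxe p.1) (s p.2)) • ((∏ i, b i ^ (p.1 i : ℕ)) * e p.2)) = 0 :=
    Ideal.Quotient.eq_zero_iff_mem.2 h1
  rw [map_sum] at h2
  have h3 : ∑ p : (Fin g → Fin q) × J, (coeff (bxe p.1) (s p.2)) • v p = 0 := by
    rw [← h2]
    refine Finset.sum_congr rfl fun p _ => ?_
    rw [map_smul]
  intro γ j
  exact Fintype.linearIndependent_iff.1 hli _ h3 (γ, j)

theorem Th_box' (h : IsB b e) (E : ℕ) (s : J → MvPowerSeries (Fin g) k)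
    (hs : Th h.cc e s ∈ bx b (2 ^ E)) (γ : Fin g →₀ ℕ) (hγ : ∀ i, γ i < 2 ^ E) (j : J) :
    coeff γ (s j) = 0 := by
  have := Th_box e h E s hs (fun i => ⟨γ i, hγ i⟩) j
  have h2 : bxe (fun i => (⟨γ i, hγ i⟩ : Fin (2 ^ E))) = γ := by ext i; simp
  rwa [h2] at this

theorem Th_injective (h : IsB b e) : Function.Injective (Th h.cc e) := by
  intro s t hst
  have h0 : Th h.cc e (fun j => s j - t j) = 0 := by rw [Th_sub, hst, sub_self]
  funext j
  ext γ
  have hlt : ∀ i, γ i < 2 ^ (Finsupp.degree γ) := fun i =>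
    lt_of_le_of_lt (Finsupp.le_degree i γ) Nat.lt_two_pow_self
  have := Th_box' e h (Finsupp.degree γ) (fun j => s j - t j) (by rw [h0]; exact Ideal.zero_mem _)
    γ hlt j
  rw [map_sub, sub_eq_zero] at this
  exact this

theorem Th_surjective (h : IsB b e) : Function.Surjective (Th h.cc e) := by
  intro f
  have h1 : ∀ E : ℕ, ∃ s, f - Th h.cc e s ∈ bx b (2 ^ E) := by
    intro E
    obtain ⟨N, hN⟩ := pow_le_bx b (2 ^ E)
    obtain ⟨s, hs⟩ := Th_approx e h N f
    exact ⟨s, hN hs⟩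
  choose s hs using h1
  have key : ∀ E E' : ℕ, E ≤ E' → ∀ γ : Fin g →₀ ℕ, (∀ i, γ i < 2 ^ E) → ∀ j,
      coeff γ (s E j) = coeff γ (s E' j) := by
    intro E E' hE γ hγ j
    have h2 := Ideal.sub_mem _ (hs E) (bx_anti b (Nat.pow_le_pow_right two_pos hE) (hs E'))
    rw [sub_sub_sub_cancel_left, ← Th_sub] at h2
    have := Th_box' e h E _ h2 γ hγ j
    rw [map_sub, sub_eq_zero] at this
    exact this.symm
  have key2 : ∀ E E' : ℕ, ∀ γ : Fin g →₀ ℕ, (∀ i, γ i < 2 ^ E) → (∀ i, γ i < 2 ^ E') → ∀ j,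
      coeff γ (s E j) = coeff γ (s E' j) := by
    intro E E' γ h1 h2 j
    rcases le_total E E' with h | h
    · exact key E E' h γ h1 j
    · exact (key E' E h γ h2 j).symm
  let S : J → MvPowerSeries (Fin g) k := fun j γ => coeff γ (s (Finsupp.degree γ) j)
  have hS : ∀ j γ, coeff γ (S j) = coeff γ (s (Finsupp.degree γ) j) := fun _ _ => rfl
  refine ⟨S, ?_⟩
  symm
  rw [← sub_eq_zero]
  apply eq_zero_of_bx h.cc
  intro E
  have h3 : Th h.cc e (fun j => s E j - S j) ∈
      bx b (2 ^ E) := by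
    apply Th_mem_bx
    intro j γ hγ
    rw [map_sub, sub_eq_zero, hS]
    exact key2 _ _ γ hγ (fun i =>
      lt_of_le_of_lt (Finsupp.le_degree i γ) Nat.lt_two_pow_self) j
  rw [Th_sub] at h3
  have := Ideal.add_mem _ (hs E) h3
  rwa [sub_add_sub_cancel] at this

end free

end R863K
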