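import Pool.Agent.R863.Kum.ML
import Pool.Agent.R863.Kum.Ex

/-! Involutions of `k[[X_1..X_g]]` in characteristic 2: basic structure. -/

set_option linter.unusedSectionVars false

namespace R863K

open MvPowerSeries IsLocalRing

variable {k : Type*} [Field k] {g : ℕ}

noncomputable section

/-- the power series ring -/
abbrev PS (k : Type*) [Field k] (g : ℕ) := MvPowerSeries (Fin g) k

theorem mem_m_iff (f : PS k g) : f ∈ maximalIdeal (PS k g) ↔ constantCoeff f = 0 := by
  rw [mem_maximalIdeal, mem_nonunits_iff, MvPowerSeries.isUnit_iff_constantCoeff,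
    isUnit_iff_ne_zero, not_not]

theorem m_eq : maximalIdeal (PS k g) = Ideal.span (Set.range fun i => (X i : PS k g)) := by
  apply le_antisymm
  · intro f hf
    rw [mem_m_iff] at hf
    have h := mem_spanX' 1 f (by
      intro γ hγ
      have : γ = 0 := by ext i; have := hγ i; simp; omega
      rw [this]; simpa using hf)
    simpa [bx] using h
  · rw [Ideal.span_le]
    rintro _ ⟨i, rfl⟩
    show X i ∈ maximalIdeal (PS k g)
    rw [mem_m_iff]; simp

theorem order_of_mem_pow (N : ℕ) : ∀ f ∈ maximalIdeal (PS k g) ^ N, (N : ℕ∞) ≤ order f := by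
  induction N with
  | zero => intro f _; simp
  | succ N ih =>
    intro f hf
    rw [pow_succ] at hf
    refine Submodule.mul_induction_on hf ?_ ?_
    · intro a ha b hb
      refine le_trans ?_ le_order_mul
      have h1 := ih a ha
      have h2 : (1 : ℕ∞) ≤ order b := by
        rw [mem_m_iff] at hb
        exact one_le_order_iff_constCoeff_eq_zero.2 hb
      push_cast
      exact add_le_add h1 h2
    · intro a b ha hb
      exact le_trans (le_min ha hb) min_order_le_add

theorem coeff_of_mem_pow {N : ℕ} {f : PS k g} (hf : f ∈ maximalIdeal (PS k g) ^ N)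
    (γ : Fin g →₀ ℕ) (hγ : Finsupp.degree γ < N) : coeff γ f = 0 := by
  apply coeff_of_lt_order
  exact lt_of_lt_of_le (by exact_mod_cast hγ) (order_of_mem_pow N f hf)

theorem bx_le_pow {b : Fin g → PS k g} (hb : ∀ i, constantCoeff (b i) = 0) (q : ℕ) :
    bx b q ≤ maximalIdeal (PS k g) ^ q := by
  rw [bx, Ideal.span_le]
  rintro _ ⟨i, rfl⟩
  exact Ideal.pow_mem_pow ((mem_m_iff _).2 (hb i)) q

theorem mem_mul_span {ι : Type*} [Fintype ι] {S : Type*} [CommRing S] (I : Ideal S) (b : ι → S)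
    {x : S} (hx : x ∈ I * Ideal.span (Set.range b)) :
    ∃ a : ι → S, (∀ i, a i ∈ I) ∧ x = ∑ i, a i * b i := by
  classical
  have h : x ∈ I • Submodule.span S (Set.range b) := hx
  rw [Submodule.mem_ideal_smul_span_iff_exists_sum] at h
  obtain ⟨a, ha, h⟩ := h
  refine ⟨a, ha, ?_⟩
  rw [← h, Finsupp.sum_fintype]
  · rfl
  · intro i; simp

/-- two algebra endomorphisms with the same values on the variables agree -/
theorem algHom_ext' {τ τ' : PS k g →ₐ[k] PS k g} (h : ∀ i, τ (X i) = τ' (X i))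
    (h0 : ∀ i, constantCoeff (τ (X i)) = 0) : τ = τ' := by
  ext1 f
  rw [← sub_eq_zero]
  apply eq_zero_of_bx h0
  intro e
  have hmon : ∀ (t : PS k g →ₐ[k] PS k g) (γ : Fin g →₀ ℕ) (c : k),
      t (monomial γ c) = c • ∏ i, t (X i) ^ γ i := by
    intro t γ c
    have : (monomial γ c : PS k g) = c • ∏ i, X i ^ γ i := by
      have h1 : (monomial γ (1 : k) : PS k g) = ∏ i, X i ^ γ i := by
        rw [monomial_one_eq, Finsupp.prod_fintype _ _ (fun i => pow_zero _)]
      rw [← h1, ← map_smul, smul_eq_mul, mul_one]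
    rw [this, map_smul, map_prod]
    simp
  have hbx : ∀ (t : PS k g →ₐ[k] PS k g), (∀ i, t (X i) = τ (X i)) →
      ∀ f ∈ bx (fun i => (X i : PS k g)) (2 ^ e), t f ∈ bx (fun i => τ (X i)) (2 ^ e) := by
    intro t ht f hf
    have h := Ideal.mem_map_of_mem t.toRingHom hf
    rw [bx, Ideal.map_span] at h
    refine Ideal.span_mono ?_ h
    rintro _ ⟨_, ⟨i, rfl⟩, rfl⟩
    refine ⟨i, ?_⟩
    show τ (X i) ^ _ = t (X i ^ _)
    rw [map_pow, ht]
  have h1 := trunc_mem (2 ^ e) f
  have h2 := hbx τ (fun _ => rfl) _ h1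
  have h3 := hbx τ' (fun i => (h i).symm) _ h1
  rw [map_sub, map_sum] at h2 h3
  simp only [hmon] at h2 h3
  simp only [← h] at h3
  have := Ideal.sub_mem _ h2 h3
  rwa [sub_sub_sub_cancel_right] at this

/-- The hypotheses on the involution. -/
structure Inv (σ : PS k g →ₐ[k] PS k g) : Prop where
  inv : ∀ f, σ (σ f) = f
  lin : ∀ i, σ (X i) + X i ∈ maximalIdeal (PS k g) ^ 2
  fin : ∃ M, maximalIdeal (PS k g) ^ M ≤ Ideal.span (Set.range fun i => σ (X i) + X i)

variable {σ : PS k g →ₐ[k] PS k g}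

/-- `a_i = σ(X_i) + X_i` -/
def aa (σ : PS k g →ₐ[k] PS k g) (i : Fin g) : PS k g := σ (X i) + X i

/-- `n_i = X_i σ(X_i)` -/
def nn (σ : PS k g →ₐ[k] PS k g) (i : Fin g) : PS k g := X i * σ (X i)

/-- `δ f = σ f + f` -/
def de (σ : PS k g →ₐ[k] PS k g) : PS k g →+ PS k g := (σ : PS k g →+ PS k g) + AddMonoidHom.id _

theorem de_apply (f : PS k g) : de σ f = σ f + f := rfl

/-- the fixed ideal -/
abbrev fI (σ : PS k g →ₐ[k] PS k g) : Ideal (PS k g) := Ideal.span (Set.range (aa σ))

variable [CharP k 2]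

theorem two0 (f : PS k g) : f + f = 0 := add_self_ser f

theorem sub_eq_add' (f h : PS k g) : f - h = f + h := by
  have : -h = h := by rw [neg_eq_iff_add_eq_zero]; exact two0 h
  rw [sub_eq_add_neg, this]

theorem Inv.aa_sq (h : Inv σ) (i : Fin g) : aa σ i ∈ maximalIdeal (PS k g) ^ 2 := h.lin i

theorem Inv.aa_cc (h : Inv σ) (i : Fin g) : constantCoeff (aa σ i) = 0 := by
  rw [← mem_m_iff]
  exact Ideal.pow_le_self two_ne_zero (h.lin i)

theorem sX (i : Fin g) : σ (X i) = X i + aa σ i := by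
  rw [aa, add_comm (σ (X i)), ← add_assoc, two0, zero_add]

theorem Inv.sX_cc (h : Inv σ) (i : Fin g) : constantCoeff (σ (X i)) = 0 := by
  rw [sX, map_add, h.aa_cc]; simp

theorem Inv.s_aa (h : Inv σ) (i : Fin g) : σ (aa σ i) = aa σ i := by
  rw [aa, map_add, h.inv, add_comm]

theorem Inv.s_nn (h : Inv σ) (i : Fin g) : σ (nn σ i) = nn σ i := by
  rw [nn, map_mul, h.inv, mul_comm]

theorem nn_eq (i : Fin g) : nn σ i = X i ^ 2 + aa σ i * X i := by
  rw [nn, sX]; ring

theorem Inv.nn_cc (_ : Inv σ) (i : Fin g) : constantCoeff (nn σ i) = 0 := by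
  rw [nn, map_mul]; simp

theorem de_mul_inv {f r : PS k g} (hf : σ f = f) : de σ (f * r) = f * de σ r := by
  rw [de_apply, de_apply, map_mul, hf]; ring

theorem Inv.s_de (h : Inv σ) (f : PS k g) : σ (de σ f) = de σ f := by
  rw [de_apply, map_add, h.inv, add_comm]

theorem de_inv {f : PS k g} (hf : σ f = f) : de σ f = 0 := by
  rw [de_apply, hf, two0]

theorem inv_of_de {f : PS k g} (hf : de σ f = 0) : σ f = f := by
  rw [de_apply] at hf
  rw [← sub_eq_zero, sub_eq_add']; exact hf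

theorem Inv.de_mem (h : Inv σ) (f : PS k g) : de σ f ∈ fI σ := by
  obtain ⟨M, hM⟩ := h.fin
  have h1 := trunc_mem M f
  have hX : ∀ i, constantCoeff (X i : PS k g) = 0 := by intro i; simp
  have h2 : σ (f - ∑ γ : Fin g → Fin M, monomial (bxe γ) (coeff (bxe γ) f)) ∈ fI σ := by
    have h3 : σ (f - ∑ γ : Fin g → Fin M, monomial (bxe γ) (coeff (bxe γ) f)) ∈
        bx (fun i => σ (X i)) M := by
      have h := Ideal.mem_map_of_mem σ.toRingHom h1
      rw [bx, Ideal.map_span] at h
      refine Ideal.span_mono ?_ h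
      rintro _ ⟨_, ⟨i, rfl⟩, rfl⟩
      refine ⟨i, ?_⟩
      show σ (X i) ^ _ = σ (X i ^ _)
      rw [map_pow]
    exact hM (bx_le_pow h.sX_cc M h3)
  have h3 := hM (bx_le_pow hX M h1)
  have h4 : de σ (∑ γ : Fin g → Fin M, monomial (bxe γ) (coeff (bxe γ) f)) ∈ fI σ := by
    rw [map_sum]
    refine Ideal.sum_mem _ fun γ _ => ?_
    have hm : (monomial (bxe γ) (coeff (bxe γ) f) : PS k g) =
        (coeff (bxe γ) f) • ∏ i, X i ^ (bxe γ) i := by
      have h1 : (monomial (bxe γ) (1 : k) : PS k g) = ∏ i, X i ^ (bxe γ) i := by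
        rw [monomial_one_eq, Finsupp.prod_fintype _ _ (fun i => pow_zero _)]
      rw [← h1, ← map_smul, smul_eq_mul, mul_one]
    rw [hm, de_apply, map_smul, ← smul_add, Algebra.smul_def]
    apply Ideal.mul_mem_left
    rw [← sub_eq_add']
    apply Ideal.Quotient.eq.1
    rw [map_prod, map_prod, map_prod]
    refine Finset.prod_congr rfl fun i _ => ?_
    rw [map_pow, map_pow, map_pow]
    congr 1
    apply Ideal.Quotient.eq.2
    rw [sub_eq_add']
    exact Ideal.subset_span ⟨i, rfl⟩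
  have h5 := Ideal.add_mem _ (Ideal.add_mem _ h2 h3) h4
  have h6 : de σ f = σ (f - ∑ γ : Fin g → Fin M, monomial (bxe γ) (coeff (bxe γ) f)) +
      (f - ∑ γ : Fin g → Fin M, monomial (bxe γ) (coeff (bxe γ) f)) +
      de σ (∑ γ : Fin g → Fin M, monomial (bxe γ) (coeff (bxe γ) f)) := by
    rw [← de_apply, ← map_add, sub_add_cancel]
  rw [h6]
  exact h5

theorem Inv.fI_le (h : Inv σ) : fI σ ≤ maximalIdeal (PS k g) := by
  rw [Ideal.span_le]
  rintro _ ⟨i, rfl⟩
  exact (mem_m_iff _).2 (h.aa_cc i)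

theorem Inv.finite (h : Inv σ) : Module.Finite k (PS k g ⧸ fI σ) := by
  obtain ⟨M, hM⟩ := h.fin
  have hX : ∀ i, constantCoeff (X i : PS k g) = 0 := by intro i; simp
  let v : (Fin g → Fin M) → PS k g ⧸ fI σ := fun γ =>
    Ideal.Quotient.mkₐ k (fI σ) (monomial (bxe γ) 1)
  have hspan : ⊤ ≤ Submodule.span k (Set.range v) := by
    intro x _
    obtain ⟨f, rfl⟩ := Ideal.Quotient.mkₐ_surjective k (fI σ) x
    have h1 := hM (bx_le_pow hX M (trunc_mem M f))
    have h2 : Ideal.Quotient.mkₐ k (fI σ) f = ∑ γ : Fin g → Fin M, (coeff (bxe γ) f) • v γ := by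
      have h3 : Ideal.Quotient.mkₐ k (fI σ) f = Ideal.Quotient.mkₐ k (fI σ)
        (∑ γ : Fin g → Fin M, monomial (bxe γ) (coeff (bxe γ) f)) := Ideal.Quotient.eq.2 h1
      rw [h3, map_sum]
      refine Finset.sum_congr rfl fun p _ => ?_
      rw [← map_smul, ← map_smul, smul_eq_mul, mul_one]
    rw [h2]
    exact Submodule.sum_mem _ fun p _ => Submodule.smul_mem _ _ (Submodule.subset_span ⟨p, rfl⟩)
  exact ⟨by rw [← top_le_iff.1 hspan]; exact Submodule.fg_span (Set.finite_range v)⟩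

theorem Inv.exists_isB (h : Inv σ) : ∃ (d : ℕ) (e : Fin d → PS k g), IsB (aa σ) e := by
  have := h.finite
  let B := Module.finBasis k (PS k g ⧸ fI σ)
  choose e he using fun j => Ideal.Quotient.mkₐ_surjective k (fI σ) (B j)
  refine ⟨_, e, h.aa_cc, ?_, ?_⟩
  · intro f
    refine ⟨fun j => B.repr (Ideal.Quotient.mkₐ k (fI σ) f) j, ?_⟩
    apply Ideal.Quotient.eq.1
    have h1 := B.sum_repr (Ideal.Quotient.mkₐ k (fI σ) f)
    have h2 : Ideal.Quotient.mkₐ k (fI σ) (∑ j, B.repr (Ideal.Quotient.mkₐ k (fI σ) f) j • e j) =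
        Ideal.Quotient.mkₐ k (fI σ) f := by
      rw [map_sum]
      conv_rhs => rw [← h1]
      refine Finset.sum_congr rfl fun j _ => ?_
      rw [map_smul, he]
    exact h2.symm
  · intro c hc
    have h1 : Ideal.Quotient.mkₐ k (fI σ) (∑ j, c j • e j) = 0 :=
      Ideal.Quotient.eq_zero_iff_mem.2 hc
    rw [map_sum] at h1
    have h2 : ∑ j, c j • B j = 0 := by
      rw [← h1]
      refine Finset.sum_congr rfl fun j _ => ?_
      rw [map_smul, he]
    exact Fintype.linearIndependent_iff.1 B.linearIndependent c h2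

theorem coeff_single_X_mul (i l : Fin g) (t : PS k g) :
    coeff (Finsupp.single i 1) (X l * t) = if l = i then coeff 0 t else 0 := by
  rw [coeff_X_mul']
  by_cases h : l = i
  · subst h; simp
  · simp [h, Finsupp.single_apply, Ne.symm h]

theorem mem_span_one {b : Fin g → PS k g} (hb : ∀ i, constantCoeff (b i) = 0) {t : PS k g}
    (ht : coeff 0 t = 0) : substAlgHom (hasS hb) t ∈ Ideal.span (Set.range b) := by
  have h1 : t ∈ bx (fun i => (X i : PS k g)) 1 := by
    apply mem_spanX'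
    intro γ hγ
    have : γ = 0 := by ext i; have := hγ i; simp; omega
    rw [this]; exact ht
  have := subst_mem_bx hb 1 h1
  simpa [bx] using this

variable [PerfectRing k 2]

/-- quasi-regularity in degree one -/
theorem Inv.qr (h : Inv σ) (z : Fin g → PS k g) (hz : ∑ i, aa σ i * z i = 0) (i : Fin g) :
    z i ∈ fI σ := by
  obtain ⟨d, e, hB⟩ := h.exists_isB
  choose t ht using fun i => Th_surjective e hB (z i)
  have h1 : Th hB.cc e (fun j => ∑ i, X i * t i j) = Th hB.cc e (fun _ => 0) := by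
    rw [Th_sum]
    simp only [Th_X, ht, hz]
    simp only [Th, map_zero, zero_mul, Finset.sum_const_zero]
  have h2 := Th_injective e hB h1
  rw [← ht i]
  refine Ideal.sum_mem _ fun j _ => Ideal.mul_mem_right _ _ ?_
  refine mem_span_one h.aa_cc ?_
  have h3 := congrArg (coeff (Finsupp.single i 1)) (congrFun h2 j)
  rw [map_sum] at h3
  simp only [coeff_single_X_mul] at h3
  simpa using h3

end

end R863K
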