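import Pool.Agent.R863.Kum.Main1

/-! Involutions of `k[[X_1..X_g]]` in characteristic 2: decompositions. -/

set_option linter.unusedSectionVars false

namespace R863K

open MvPowerSeries IsLocalRing

variable {k : Type*} [Field k] {g : ℕ}

noncomputable section

/-- toggle -/
def tog (i : Fin g) (U : Finset (Fin g)) : Finset (Fin g) := if i ∈ U then U.erase i else insert i U

theorem tog_invol (i : Fin g) : Function.Involutive (tog i) := by
  intro U
  by_cases h : i ∈ U
  · simp [tog, h, Finset.insert_erase]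
  · simp [tog, h, Finset.erase_insert]

theorem sum_tog {M : Type*} [AddCommMonoid M] (i : Fin g) (F : Finset (Fin g) → M) :
    ∑ U, F (tog i U) = ∑ U, F U :=
  Equiv.sum_comp (tog_invol i).toPerm F

theorem tog_mem {i : Fin g} {U : Finset (Fin g)} (h : i ∈ U) : tog i U = U.erase i := if_pos h
theorem tog_not {i : Fin g} {U : Finset (Fin g)} (h : i ∉ U) : tog i U = insert i U := if_neg h

/-- `x_S` -/
def xS (U : Finset (Fin g)) : PS k g := ∏ i ∈ U, X i

theorem xS_empty : (xS ∅ : PS k g) = 1 := by simp [xS]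

theorem xS_insert {i : Fin g} {U : Finset (Fin g)} (h : i ∉ U) :
    (xS (insert i U) : PS k g) = X i * xS U := by
  simp [xS, Finset.prod_insert h]

theorem xS_erase {i : Fin g} {U : Finset (Fin g)} (h : i ∈ U) :
    X i * (xS (U.erase i) : PS k g) = xS U := by
  simp [xS, Finset.mul_prod_erase U _ h]

/-- `∑ f_S x_S` -/
def Xh (f : MM k g) : PS k g := ∑ U, f U * xS U

theorem Xh_add (f h : MM k g) : Xh (fun U => f U + h U) = Xh f + Xh h := by
  simp only [Xh, add_mul, Finset.sum_add_distrib]

theorem Xh_sum {ι : Type*} (T : Finset ι) (f : ι → MM k g) :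
    Xh (fun U => ∑ i ∈ T, f i U) = ∑ i ∈ T, Xh (f i) := by
  simp only [Xh, Finset.sum_mul]
  rw [Finset.sum_comm]

variable {σ : PS k g →ₐ[k] PS k g} [CharP k 2]

theorem Inv.dx (h : Inv σ) (U : Finset (Fin g)) : ∃ w : Fin g → PS k g, (∀ i, w i ∈ fI σ) ∧
    de σ (xS U) = ∑ i, aa σ i * ((if i ∈ U then xS (U.erase i) else 0) + w i) := by
  induction U using Finset.induction_on with
  | empty =>
    refine ⟨fun _ => 0, fun _ => Ideal.zero_mem _, ?_⟩
    rw [xS_empty, de_inv (map_one σ)]
    simp
  | insert j U hj ih =>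
    obtain ⟨w, hw, he⟩ := ih
    refine ⟨fun i => X j * w i + if i = j then de σ (xS U) else 0, ?_, ?_⟩
    · intro i
      refine Ideal.add_mem _ (Ideal.mul_mem_left _ _ (hw i)) ?_
      split_ifs
      · exact h.de_mem _
      · exact Ideal.zero_mem _
    · have h1 : de σ (xS (insert j U)) = X j * de σ (xS U) + aa σ j * (xS U + de σ (xS U)) := by
        rw [xS_insert hj, de_apply, de_apply, map_mul, sX]
        have : aa σ j * (xS U + (σ (xS U) + xS U)) = aa σ j * σ (xS U) := by
          rw [add_comm (σ (xS U)), ← add_assoc, two0, zero_add]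
        rw [this]; ring
      rw [h1]
      have h2 : aa σ j * (xS U + de σ (xS U)) =
          ∑ i, aa σ i * (if i = j then xS U + de σ (xS U) else 0) := by
        simp
      rw [h2]
      generalize de σ (xS U) = D at *
      have he2 : X j * D = X j * ∑ i, aa σ i * ((if i ∈ U then xS (U.erase i) else 0) + w i) := by
        rw [← he]
      rw [he2, Finset.mul_sum, ← Finset.sum_add_distrib]
      refine Finset.sum_congr rfl fun i _ => ?_
      by_cases hij : i = j
      · subst hij
        simp [hj]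
        ring
      · by_cases hi : i ∈ U
        · have h3 : (insert j U).erase i = insert j (U.erase i) := by
            rw [Finset.erase_insert_of_ne (Ne.symm hij)]
          have h4 : j ∉ U.erase i := by simp [hj]
          simp only [hij, hi, Finset.mem_insert, false_or, if_true, if_false, h3, xS_insert h4,
            mul_zero, add_zero]
          ring
        · simp only [hij, hi, Finset.mem_insert, false_or, if_false, mul_zero, add_zero, zero_add]
          ring

theorem Inv.de_fI (h : Inv σ) {f : PS k g} (hf : f ∈ fI σ) :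
    ∃ y : Fin g → PS k g, (∀ i, y i ∈ fI σ) ∧ de σ f = ∑ i, aa σ i * y i := by
  obtain ⟨r, hr⟩ := Ideal.mem_span_range_iff_exists_fun.1 hf
  refine ⟨fun i => de σ (r i), fun i => h.de_mem _, ?_⟩
  rw [← hr, map_sum]
  refine Finset.sum_congr rfl fun i _ => ?_
  rw [mul_comm, de_mul_inv (h.s_aa i)]

theorem Xh_dd (f : MM k g) (i : Fin g) :
    Xh (dd i f) = ∑ U, f U * (if i ∈ U then xS (U.erase i) else 0) := by
  rw [← sum_tog i]
  refine Finset.sum_congr rfl fun U _ => ?_
  rw [dd_apply]
  by_cases h : i ∈ U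
  · simp [h, tog_mem h]
  · simp [h, tog_not h, Finset.erase_insert]

variable [PerfectRing k 2]

theorem Inv.dec_step (h : Inv σ) (f : MM k g) (hf : ∀ U, σ (f U) = f U) (hI : Xh f ∈ fI σ)
    (i : Fin g) : Xh (dd i f) ∈ fI σ := by
  obtain ⟨y, hy, hy2⟩ := h.de_fI hI
  choose w hw hw2 using h.dx
  have h1 : de σ (Xh f) = ∑ i, aa σ i * (Xh (dd i f) + ∑ U, f U * w U i) := by
    rw [Xh, map_sum]
    have : ∀ U, de σ (f U * xS U) = ∑ i, aa σ i * (f U * (if i ∈ U then xS (U.erase i) else 0) +
        f U * w U i) := by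
      intro U
      rw [de_mul_inv (hf U), hw2, Finset.mul_sum]
      refine Finset.sum_congr rfl fun i _ => ?_
      ring
    simp only [this]
    rw [Finset.sum_comm]
    refine Finset.sum_congr rfl fun i _ => ?_
    rw [← Finset.mul_sum, Finset.sum_add_distrib, Xh_dd]
  have h2 : ∑ i, aa σ i * (Xh (dd i f) + ∑ U, f U * w U i + y i) = 0 := by
    simp only [mul_add (aa σ _) (_ + _) (y _), Finset.sum_add_distrib]
    rw [← h1, hy2, two0]
  have h3 := h.qr _ h2 i
  have h4 : ∑ U, f U * w U i + y i ∈ fI σ :=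
    Ideal.add_mem _ (Ideal.sum_mem _ fun U _ => Ideal.mul_mem_left _ _ (hw U i)) (hy i)
  rw [add_assoc] at h3
  have := Ideal.sub_mem _ h3 h4
  rwa [add_sub_cancel_right] at this

theorem Inv.dec_aux (h : Inv σ) (m : ℕ) : ∀ f : MM k g, (∀ U, σ (f U) = f U) →
    (∀ U, m < U.card → f U = 0) → Xh f ∈ fI σ → ∀ U, f U ∈ fI σ := by
  induction m with
  | zero =>
    intro f _ h0 hI U
    by_cases hU : U = ∅
    · subst hU
      have : Xh f = f ∅ := by
        rw [Xh, Finset.sum_eq_single ∅]
        · rw [xS_empty, mul_one]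
        · intro V _ hV
          rw [h0 V (Finset.card_pos.2 (Finset.nonempty_iff_ne_empty.2 hV)), zero_mul]
        · intro hh; exact absurd (Finset.mem_univ _) hh
      rwa [this] at hI
    · rw [h0 U (Finset.card_pos.2 (Finset.nonempty_iff_ne_empty.2 hU))]
      exact Ideal.zero_mem _
  | succ m ih =>
    intro f hf h0 hI
    have h1 : ∀ U, U ≠ ∅ → f U ∈ fI σ := by
      intro U hU
      obtain ⟨i, hi⟩ := Finset.nonempty_iff_ne_empty.2 hU
      have h2 := ih (dd i f) (by
        intro V
        rw [dd_apply]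
        split_ifs
        · simp
        · exact hf _) (by
        intro V hV
        rw [dd_apply]
        split_ifs with hiV
        · rfl
        · apply h0
          rw [Finset.card_insert_of_notMem hiV]
          omega) (h.dec_step f hf hI i) (U.erase i)
      rw [dd_apply, if_neg (by simp), Finset.insert_erase hi] at h2
      exact h2
    intro U
    by_cases hU : U = ∅
    · subst hU
      have h2 : Xh f = f ∅ + ∑ V ∈ Finset.univ.erase ∅, f V * xS V := by
        rw [Xh, ← Finset.add_sum_erase _ _ (Finset.mem_univ (∅ : Finset (Fin g))), xS_empty,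
          mul_one]
      have h3 : ∑ V ∈ Finset.univ.erase ∅, f V * xS V ∈ fI σ := by
        refine Ideal.sum_mem _ fun V hV => Ideal.mul_mem_right _ _ (h1 V ?_)
        exact (Finset.mem_erase.1 hV).1
      rw [h2] at hI
      have := Ideal.sub_mem _ hI h3
      rwa [add_sub_cancel_right] at this
    · exact h1 U hU

/-- Decomposition: if invariants `f_U` satisfy `∑ f_U x_U ∈ I` then all `f_U ∈ I`. -/
theorem Inv.dec (h : Inv σ) (f : MM k g) (hf : ∀ U, σ (f U) = f U) (hI : Xh f ∈ fI σ) (U) :
    f U ∈ fI σ := by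
  refine h.dec_aux g f hf ?_ hI U
  intro V hV
  have := Finset.card_le_univ V
  simp at this
  omega

/-- substitution of the norms -/
def ph (h : Inv σ) : PS k g →ₐ[k] PS k g := substAlgHom (hasS h.nn_cc)

theorem ph_X (h : Inv σ) (i : Fin g) : ph h (X i) = nn σ i := substAlgHom_X _ _

theorem s_ph (h : Inv σ) (f : PS k g) : σ (ph h f) = ph h f := by
  have h1 : σ.comp (ph h) = ph h := by
    apply algHom_ext'
    · intro i
      rw [AlgHom.comp_apply, ph_X, h.s_nn]
    · intro i
      rw [AlgHom.comp_apply, ph_X, h.s_nn, h.nn_cc]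
  exact DFunLike.congr_fun h1 f

theorem ph_C (h : Inv σ) (c : k) : ph h (C c) = C c := by
  have : (C c : PS k g) = algebraMap k _ c := rfl
  rw [this, AlgHom.commutes]

theorem ph_cc (h : Inv σ) (f : PS k g) : constantCoeff (ph h f) = constantCoeff f := by
  have h1 : f - C (constantCoeff f) ∈ maximalIdeal (PS k g) := by
    rw [mem_m_iff]; simp
  have h2 : coeff 0 (f - C (constantCoeff f)) = 0 := by
    simp
  have h3 := mem_span_one h.nn_cc h2
  have h4 : Ideal.span (Set.range (nn σ)) ≤ maximalIdeal (PS k g) := by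
    rw [Ideal.span_le]
    rintro _ ⟨i, rfl⟩
    exact (mem_m_iff _).2 (h.nn_cc i)
  have h5 := (mem_m_iff _).1 (h4 h3)
  have h6 : substAlgHom (hasS h.nn_cc) (f - C (constantCoeff f)) =
    ph h f - C (constantCoeff f) := by
    show ph h _ = _
    rw [map_sub, ph_C]
  rw [h6, map_sub] at h5
  simpa [sub_eq_zero] using h5

theorem X_mul_Xh (h : Inv σ) (i : Fin g) (c : MM k g) :
    Xh (fun U => ph h (if i ∈ U then c (U.erase i) else X i * c (insert i U))) =
    X i * Xh (fun U => ph h (c U)) + aa σ i * ∑ U, (if i ∈ U then ph h (c U) * xS U else 0) := by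
  rw [Xh, ← sum_tog i, Xh, Finset.mul_sum, Finset.mul_sum, ← Finset.sum_add_distrib]
  refine Finset.sum_congr rfl fun U _ => ?_
  by_cases hi : i ∈ U
  · simp only [hi, tog_mem hi, Finset.mem_erase, ne_eq, not_true_eq_false, false_and, if_false,
      if_true, Finset.insert_erase hi, map_mul, ph_X, nn_eq]
    rw [← xS_erase hi]
    ring
  · simp only [hi, tog_not hi, Finset.mem_insert, true_or, if_false, if_true,
      Finset.erase_insert hi, xS_insert hi]
    ring

theorem Inv.lead (h : Inv σ) (d : ℕ) : ∀ f ∈ maximalIdeal (PS k g) ^ d, ∃ c : MM k g,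
    (∀ U, ph h (c U) * xS U ∈ maximalIdeal (PS k g) ^ d) ∧
    f - Xh (fun U => ph h (c U)) ∈ maximalIdeal (PS k g) ^ (d + 1) := by
  induction d with
  | zero =>
    intro f _
    refine ⟨fun U => if U = ∅ then C (constantCoeff f) else 0, by simp, ?_⟩
    have : Xh (fun U => ph h (if U = ∅ then C (constantCoeff f) else 0)) =
        C (constantCoeff f) := by
      rw [Xh, Finset.sum_eq_single ∅]
      · rw [if_pos rfl, xS_empty, mul_one, ph_C]
      · intro V _ hV
        rw [if_neg hV, map_zero, zero_mul]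
      · intro hh; exact absurd (Finset.mem_univ _) hh
    rw [this, zero_add, pow_one, mem_m_iff]
    simp
  | succ d ih =>
    intro f hf
    rw [pow_succ] at hf
    nth_rewrite 2 [m_eq] at hf
    obtain ⟨r, hr, hf⟩ := mem_mul_span _ _ hf
    choose c hc1 hc2 using fun i => ih (r i) (hr i)
    have hterm : ∀ i U, ph h (if i ∈ U then c i (U.erase i) else X i * c i (insert i U)) * xS U ∈
        maximalIdeal (PS k g) ^ (d + 1) := by
      intro i U
      have hXm : (X i : PS k g) ∈ maximalIdeal (PS k g) := (mem_m_iff _).2 (by simp)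
      have hsXm : σ (X i : PS k g) ∈ maximalIdeal (PS k g) := (mem_m_iff _).2 (h.sX_cc i)
      by_cases hi : i ∈ U
      · rw [if_pos hi, ← xS_erase hi, pow_succ]
        have : ph h (c i (U.erase i)) * (X i * xS (U.erase i)) =
            (ph h (c i (U.erase i)) * xS (U.erase i)) * X i := by ring
        rw [this]
        exact Ideal.mul_mem_mul (hc1 i _) hXm
      · rw [if_neg hi, map_mul, ph_X, nn, pow_succ]
        have : X i * σ (X i) * ph h (c i (insert i U)) * xS U =
            (ph h (c i (insert i U)) * xS (insert i U)) * σ (X i) := by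
          rw [xS_insert hi]; ring
        rw [this]
        exact Ideal.mul_mem_mul (hc1 i _) hsXm
    refine ⟨fun U => ∑ i, if i ∈ U then c i (U.erase i) else X i * c i (insert i U), ?_, ?_⟩
    · intro U
      rw [map_sum, Finset.sum_mul]
      exact Ideal.sum_mem _ fun i _ => hterm i U
    · simp only [map_sum]
      rw [Xh_sum, hf, ← Finset.sum_sub_distrib]
      refine Ideal.sum_mem _ fun i _ => ?_
      rw [X_mul_Xh, ← sub_sub, mul_comm (r i), ← mul_sub]
      refine Ideal.sub_mem _ ?_ ?_
      · rw [pow_succ']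
        exact Ideal.mul_mem_mul ((mem_m_iff _).2 (by simp)) (hc2 i)
      · have h2 : maximalIdeal (PS k g) ^ (d + 1 + 1) =
            maximalIdeal (PS k g) ^ 2 * maximalIdeal (PS k g) ^ d := by
          rw [← pow_add]; congr 1; omega
        rw [h2]
        refine Ideal.mul_mem_mul (h.aa_sq i) (Ideal.sum_mem _ fun U _ => ?_)
        split_ifs
        · exact hc1 i U
        · exact Ideal.zero_mem _

theorem Inv.approx (h : Inv σ) (N : ℕ) (f : PS k g) : ∃ c : MM k g,
    f - Xh (fun U => ph h (c U)) ∈ maximalIdeal (PS k g) ^ N := by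
  induction N with
  | zero => exact ⟨fun _ => 0, by simp⟩
  | succ N ih =>
    obtain ⟨c, hc⟩ := ih
    obtain ⟨c', _, hc'⟩ := h.lead N _ hc
    refine ⟨fun U => c U + c' U, ?_⟩
    simp only [map_add]
    rw [Xh_add, ← sub_sub]
    exact hc'

/-- exponent of `x_U` -/
def eU (U : Finset (Fin g)) : Fin g →₀ ℕ :=
  Finsupp.equivFunOnFinite.symm (fun i => if i ∈ U then 1 else 0)

theorem eU_apply (U : Finset (Fin g)) (i : Fin g) : eU U i = if i ∈ U then 1 else 0 := rfl

theorem eU_inj {U V : Finset (Fin g)} (h : eU U = eU V) : U = V := by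
  ext i
  have := DFunLike.congr_fun h i
  rw [eU_apply, eU_apply] at this
  by_cases h1 : i ∈ U <;> by_cases h2 : i ∈ V <;> simp_all

theorem xS_eq (U : Finset (Fin g)) : (xS U : PS k g) = monomial (eU U) 1 := by
  rw [monomial_one_eq, Finsupp.prod_fintype _ _ (fun i => pow_zero _), xS]
  simp only [eU_apply]
  rw [← Finset.prod_subset (Finset.subset_univ U)]
  · refine Finset.prod_congr rfl fun i hi => ?_
    simp [hi]
  · intro i _ hi
    simp [hi]

theorem coeff_xS (U V : Finset (Fin g)) :
    coeff (eU V) (xS U : PS k g) = if U = V then 1 else 0 := by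
  classical
  rw [xS_eq, coeff_monomial]
  by_cases h : U = V
  · subst h; simp
  · rw [if_neg h, if_neg]
    intro h'; exact h (eU_inj h').symm

theorem coeff_sq {f : PS k g} (hf : f ∈ bx (fun i => (X i : PS k g)) 2) (U) :
    coeff (eU U) f = 0 := by
  rw [bx] at hf
  obtain ⟨c, rfl⟩ := Ideal.mem_span_range_iff_exists_fun.1 hf
  rw [map_sum]
  refine Finset.sum_eq_zero fun i _ => ?_
  have : (X i : PS k g) ^ 2 ∣ c i * X i ^ 2 := dvd_mul_left _ _
  rw [X_pow_dvd_iff] at this
  apply this
  rw [eU_apply]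
  split_ifs <;> omega

theorem sq_approx (f : PS k g) :
    f - ∑ U, coeff (eU U) f • xS U ∈ bx (fun i => (X i : PS k g)) 2 := by
  apply mem_spanX'
  intro γ hγ
  have h1 : γ = eU (Finset.univ.filter fun i => γ i = 1) := by
    ext i
    rw [eU_apply]
    have := hγ i
    simp only [Finset.mem_filter, Finset.mem_univ, true_and]
    split_ifs <;> omega
  rw [h1, map_sub, map_sum]
  simp only [map_smul, coeff_xS, smul_eq_mul]
  rw [Finset.sum_eq_single (Finset.univ.filter fun i => γ i = 1)]
  · simp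
  · intro V _ hV
    rw [if_neg hV, mul_zero]
  · intro hh; exact absurd (Finset.mem_univ _) hh

/-- the ideal of the norms -/
abbrev nI (σ : PS k g →ₐ[k] PS k g) : Ideal (PS k g) := Ideal.span (Set.range (nn σ))

theorem Inv.fI_le1 (h : Inv σ) : fI σ ≤ nI σ ⊔ maximalIdeal (PS k g) • fI σ := by
  intro f hf
  obtain ⟨M, hM⟩ := h.fin
  obtain ⟨c, hc⟩ := h.approx (M + 1) f
  have h1 : f - Xh (fun U => ph h (c U)) ∈ maximalIdeal (PS k g) • fI σ := by
    rw [pow_succ'] at hc
    exact Ideal.mul_mono_right hM hc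
  have h2 : Xh (fun U => ph h (c U)) ∈ fI σ := by
    have h3 : f - Xh (fun U => ph h (c U)) ∈ fI σ := Submodule.smul_le_right h1
    have := Ideal.sub_mem _ hf h3
    rwa [sub_sub_cancel] at this
  have h3 := h.dec _ (fun U => s_ph h _) h2
  have h4 : Xh (fun U => ph h (c U)) ∈ nI σ := by
    refine Ideal.sum_mem _ fun U _ => Ideal.mul_mem_right _ _ ?_
    refine mem_span_one h.nn_cc ?_
    have := (mem_m_iff _).1 (h.fI_le (h3 U))
    rw [ph_cc] at this
    simpa using this
  have := Submodule.add_mem_sup h4 h1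
  rwa [add_sub_cancel] at this

theorem nak {A B : Ideal (PS k g)} (hB : B.FG) (h : B ≤ A ⊔ maximalIdeal (PS k g) • B) :
    B ≤ A :=
  Submodule.le_of_le_smul_of_le_jacobson_bot hB (by rw [IsLocalRing.jacobson_eq_maximalIdeal _ bot_ne_top]) h

theorem Inv.fI_fg (σ : PS k g →ₐ[k] PS k g) : (fI σ).FG :=
  ⟨(Set.finite_range (aa σ)).toFinset, by simp⟩

theorem Inv.fI_le_nI (h : Inv σ) : fI σ ≤ nI σ := nak (Inv.fI_fg σ) h.fI_le1

theorem Inv.fI_le_sq (h : Inv σ) : fI σ ≤ bx (fun i => (X i : PS k g)) 2 := by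
  apply nak (Inv.fI_fg σ)
  refine le_trans h.fI_le1 (sup_le ?_ le_sup_right)
  rw [Ideal.span_le]
  rintro _ ⟨i, rfl⟩
  rw [nn_eq]
  refine Submodule.add_mem_sup (Ideal.subset_span ⟨i, rfl⟩) ?_
  rw [mul_comm]
  exact Ideal.mul_mem_mul ((mem_m_iff _).2 (by simp)) (Ideal.subset_span ⟨i, rfl⟩)

theorem Inv.nI_eq (h : Inv σ) : nI σ = bx (fun i => (X i : PS k g)) 2 := by
  apply le_antisymm
  · rw [Ideal.span_le]
    rintro _ ⟨i, rfl⟩
    rw [nn_eq]
    exact Ideal.add_mem _ (Ideal.subset_span ⟨i, rfl⟩)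
      (Ideal.mul_mem_right _ _ (h.fI_le_sq (Ideal.subset_span ⟨i, rfl⟩)))
  · rw [bx, Ideal.span_le]
    rintro _ ⟨i, rfl⟩
    have h1 : (X i : PS k g) ^ 2 = nn σ i - aa σ i * X i := by rw [nn_eq]; ring
    show (X i : PS k g) ^ 2 ∈ nI σ
    rw [h1]
    exact Ideal.sub_mem _ (Ideal.subset_span ⟨i, rfl⟩)
      (Ideal.mul_mem_right _ _ (h.fI_le_nI (Ideal.subset_span ⟨i, rfl⟩)))

/-- `x_U` is a basis modulo the norms -/
theorem Inv.isB_nn (h : Inv σ) : IsB (nn σ) (xS : Finset (Fin g) → PS k g) := by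
  refine ⟨h.nn_cc, ?_, ?_⟩
  · intro f
    exact ⟨fun U => coeff (eU U) f, by rw [← nI, h.nI_eq]; exact sq_approx f⟩
  · intro c hc U
    rw [← nI, h.nI_eq] at hc
    have := coeff_sq hc U
    rw [map_sum] at this
    simpa [coeff_xS] using this

/-- every `f` is `∑ φ(c_U) x_U` -/
theorem Inv.expand (h : Inv σ) (f : PS k g) : ∃ c : MM k g, f = Xh (fun U => ph h (c U)) := by
  obtain ⟨c, hc⟩ := Th_surjective _ h.isB_nn f
  exact ⟨c, hc.symm⟩

theorem Inv.expand_unique (h : Inv σ) (c c' : MM k g)
    (hc : Xh (fun U => ph h (c U)) = Xh (fun U => ph h (c' U))) : c = c' :=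
  Th_injective _ h.isB_nn hc

end

end R863K
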