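import Pool.Agent.R863.Kum.Main2

/-! Involutions of `k[[X_1..X_g]]` in characteristic 2: the invariants are `N + Tr`. -/

set_option linter.unusedSectionVars false

namespace R863K

open MvPowerSeries IsLocalRing

variable {k : Type*} [Field k] {g : ℕ}

noncomputable section

/-- updated variables -/
def yl (a : Fin g → PS k g) : List (Fin g) → (Fin g → PS k g) → (Fin g → PS k g)
  | [], y => y
  | i :: l, y => Function.update (yl a l y) i (yl a l y i + a i)

theorem yl_apply (a : Fin g → PS k g) {l : List (Fin g)} (hl : l.Nodup) (y : Fin g → PS k g)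
    (i : Fin g) : yl a l y i = if i ∈ l then y i + a i else y i := by
  induction l with
  | nil => simp [yl]
  | cons j l ih =>
    rw [List.nodup_cons] at hl
    rw [yl]
    by_cases hij : i = j
    · subst hij
      rw [Function.update_self, ih hl.2, if_neg hl.1, if_pos (List.mem_cons_self)]
    · rw [Function.update_of_ne hij, ih hl.2]
      simp [hij]

/-- `∑ φ(s_U) y_U` -/
def Xy (φ : PS k g →ₐ[k] PS k g) (y : Fin g → PS k g) (s : MM k g) : PS k g :=
  ∑ U, φ (s U) * ∏ i ∈ U, y i

theorem prod_update' (z : Fin g → PS k g) (i : Fin g) (b : PS k g) (U : Finset (Fin g)) :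
    ∏ l ∈ U, Function.update z i (z i + b) l =
      ∏ l ∈ U, z l + (if i ∈ U then b * ∏ l ∈ U.erase i, z l else 0) := by
  by_cases hi : i ∈ U
  · rw [if_pos hi, ← Finset.mul_prod_erase U _ hi, ← Finset.mul_prod_erase U z hi,
      Function.update_self]
    have : ∏ l ∈ U.erase i, Function.update z i (z i + b) l = ∏ l ∈ U.erase i, z l := by
      refine Finset.prod_congr rfl fun l hl => ?_
      rw [Function.update_of_ne (Finset.ne_of_mem_erase hl)]
    rw [this]; ring
  · rw [if_neg hi, add_zero]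
    refine Finset.prod_congr rfl fun l hl => ?_
    rw [Function.update_of_ne]
    rintro rfl; exact hi hl

theorem Xy_update (φ : PS k g →ₐ[k] PS k g) (z : Fin g → PS k g) (i : Fin g) (s : MM k g) :
    Xy φ z (s + XX i (dd i s)) = Xy φ (Function.update z i (z i + φ (X i))) s := by
  simp only [Xy, prod_update', mul_add, Finset.sum_add_distrib, Pi.add_apply, map_add, add_mul]
  congr 1
  rw [← sum_tog i]
  refine Finset.sum_congr rfl fun U _ => ?_
  rw [XX_apply, dd_apply]
  by_cases hi : i ∈ U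
  · simp [hi, tog_mem hi, Finset.insert_erase]
    ring
  · simp [hi, tog_not hi]

theorem Xy_io (φ : PS k g →ₐ[k] PS k g) (y : Fin g → PS k g) (l : List (Fin g)) :
    ∀ s : MM k g, Xy φ y (io l s) = Xy φ (yl (fun i => φ (X i)) l y) s := by
  induction l with
  | nil => intro s; rfl
  | cons i l ih =>
    intro s
    rw [io_cons, ih, Xy_update, yl]

variable {σ : PS k g →ₐ[k] PS k g} [CharP k 2]

/-- substitution of the `a_i` -/
def pa (h : Inv σ) : PS k g →ₐ[k] PS k g := substAlgHom (hasS h.aa_cc)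

theorem pa_X (h : Inv σ) (i : Fin g) : pa h (X i) = aa σ i := substAlgHom_X _ _

theorem s_pa (h : Inv σ) (f : PS k g) : σ (pa h f) = pa h f := by
  have h1 : σ.comp (pa h) = pa h := by
    apply algHom_ext'
    · intro i
      rw [AlgHom.comp_apply, pa_X, h.s_aa]
    · intro i
      rw [AlgHom.comp_apply, pa_X, h.s_aa, h.aa_cc]
  exact DFunLike.congr_fun h1 f

theorem s_Xy (h : Inv σ) (s : MM k g) :
    σ (Xy (pa h) X s) = Xy (pa h) X (io (List.finRange g) s) := by
  rw [Xy_io, Xy, map_sum, Xy]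
  refine Finset.sum_congr rfl fun U _ => ?_
  rw [map_mul, s_pa, map_prod]
  congr 1
  refine Finset.prod_congr rfl fun i _ => ?_
  rw [yl_apply _ (List.nodup_finRange g), if_pos (List.mem_finRange i), sX, pa_X]

variable [PerfectRing k 2]

theorem Th_prod {d : ℕ} (h : Inv σ) (e : Fin d → PS k g)
    (s : Fin d × Finset (Fin g) → PS k g) :
    Th h.aa_cc (fun p : Fin d × Finset (Fin g) => e p.1 * xS p.2) s =
      ∑ j, e j * Xy (pa h) X (fun U => s (j, U)) := by
  rw [Th, Fintype.sum_prod_type]
  refine Finset.sum_congr rfl fun j _ => ?_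
  rw [Xy, Finset.mul_sum]
  refine Finset.sum_congr rfl fun U _ => ?_
  show pa h (s (j, U)) * (e j * xS U) = e j * (pa h (s (j, U)) * xS U)
  ring

theorem Inv.main (h : Inv σ) : ∃ (d : ℕ) (e : Fin d → PS k g),
    (∀ j, ∃ ε, e j = ph h ε) ∧
    (∀ c : Fin d → k, ∑ j, c j • e j ∈ fI σ → ∀ j, c j = 0) ∧
    ∀ f, σ f = f → ∃ (c : Fin d → k) (u : PS k g), f = ∑ j, c j • e j + de σ u := by
  have := h.finite
  let mk := Ideal.Quotient.mkₐ k (fI σ)
  let W : Submodule k (PS k g ⧸ fI σ) := LinearMap.range (mk.toLinearMap ∘ₗ (ph h).toLinearMap)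
  let B := Module.finBasis k W
  have hε : ∀ j, ∃ ε, mk (ph h ε) = (B j : PS k g ⧸ fI σ) := by
    intro j
    obtain ⟨ε, hε⟩ := (B j).2
    exact ⟨ε, hε⟩
  choose ε hε using hε
  have hindep : ∀ c : Fin (Module.finrank k W) → k, ∑ j, c j • ph h (ε j) ∈ fI σ →
      ∀ j, c j = 0 := by
    intro c hc
    have h1 : mk (∑ j, c j • ph h (ε j)) = 0 := Ideal.Quotient.eq_zero_iff_mem.2 hc
    rw [map_sum] at h1
    have h2 : ∑ j, c j • B j = 0 := by
      apply Subtype.ext
      rw [Submodule.coe_sum, Submodule.coe_zero, ← h1]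
      refine Finset.sum_congr rfl fun j _ => ?_
      rw [map_smul, hε, Submodule.coe_smul]
    exact Fintype.linearIndependent_iff.1 B.linearIndependent c h2
  have hspanC : ∀ c : PS k g, ∃ r : Fin (Module.finrank k W) → k,
      ph h c - ∑ j, r j • ph h (ε j) ∈ fI σ := by
    intro c
    have hc : mk (ph h c) ∈ W := ⟨c, rfl⟩
    refine ⟨fun j => B.repr ⟨_, hc⟩ j, ?_⟩
    apply Ideal.Quotient.eq.1
    have h1 := congrArg (Subtype.val) (B.sum_repr ⟨_, hc⟩)
    rw [Submodule.coe_sum] at h1
    have h2 : mk (∑ j, B.repr ⟨_, hc⟩ j • ph h (ε j)) = mk (ph h c) := by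
      rw [map_sum]
      refine Eq.trans ?_ h1
      refine Finset.sum_congr rfl fun j _ => ?_
      rw [map_smul, hε, Submodule.coe_smul]
    exact h2.symm
  refine ⟨_, fun j => ph h (ε j), fun j => ⟨_, rfl⟩, hindep, ?_⟩
  have hB : IsB (aa σ) (fun p : Fin (Module.finrank k W) × Finset (Fin g) =>
      ph h (ε p.1) * xS p.2) := by
    refine ⟨h.aa_cc, ?_, ?_⟩
    · intro f
      obtain ⟨c, rfl⟩ := h.expand f
      choose r hr using fun U => hspanC (c U)
      refine ⟨fun p => r p.2 p.1, ?_⟩
      rw [Fintype.sum_prod_type_right, Xh, ← Finset.sum_sub_distrib]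
      refine Ideal.sum_mem _ fun U _ => ?_
      have : ph h (c U) * xS U - ∑ j, r U j • (ph h (ε j) * xS U) =
          (ph h (c U) - ∑ j, r U j • ph h (ε j)) * xS U := by
        rw [sub_mul, Finset.sum_mul]
        simp only [smul_mul_assoc]
      rw [this]
      exact Ideal.mul_mem_right _ _ (hr U)
    · intro c hc
      rw [Fintype.sum_prod_type_right] at hc
      have h1 : Xh (fun U => ∑ j, c (j, U) • ph h (ε j)) ∈ fI σ := by
        convert hc using 1
        rw [Xh]
        refine Finset.sum_congr rfl fun U _ => ?_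
        rw [Finset.sum_mul]
        simp only [smul_mul_assoc]
      have h2 := h.dec _ (by
        intro U
        rw [map_sum]
        refine Finset.sum_congr rfl fun j _ => ?_
        rw [map_smul, s_ph]) h1
      rintro ⟨j, U⟩
      exact hindep _ (h2 U) j
  intro f hf
  obtain ⟨s, hs⟩ := Th_surjective _ hB f
  have key : ∀ s, Th hB.cc (fun p : Fin (Module.finrank k W) × Finset (Fin g) =>
      ph h (ε p.1) * xS p.2) s = ∑ j, ph h (ε j) * Xy (pa h) X (fun U => s (j, U)) :=
    fun s => Th_prod h (fun j => ph h (ε j)) s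
  rw [key] at hs
  have h1 : Th hB.cc (fun p : Fin (Module.finrank k W) × Finset (Fin g) =>
      ph h (ε p.1) * xS p.2) (fun p : Fin (Module.finrank k W) × Finset (Fin g) =>
      io (List.finRange g) (fun U => s (p.1, U)) p.2) =
      Th hB.cc (fun p : Fin (Module.finrank k W) × Finset (Fin g) =>
      ph h (ε p.1) * xS p.2) s := by
    rw [key, key, hs]
    conv_rhs => rw [← hf, ← hs]
    rw [map_sum]
    refine Finset.sum_congr rfl fun j _ => ?_
    rw [map_mul, s_ph, s_Xy]
  have h2 := Th_injective _ hB h1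
  have h3 : ∀ j, io (List.finRange g) (fun U => s (j, U)) = fun U => s (j, U) := by
    intro j
    funext U
    exact congrFun h2 (j, U)
  choose c u hcu using fun j => exact_all _ (h3 j)
  refine ⟨c, ∑ j, ph h (ε j) * Xy (pa h) X (u j), ?_⟩
  rw [← hs, map_sum, ← Finset.sum_add_distrib]
  refine Finset.sum_congr rfl fun j _ => ?_
  rw [de_mul_inv (s_ph h _), de_apply, s_Xy]
  have h4 : Xy (pa h) X (fun U => s (j, U)) = C (c j) +
      (Xy (pa h) X (io (List.finRange g) (u j)) + Xy (pa h) X (u j)) := by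
    rw [hcu j]
    simp only [Xy, Pi.add_apply, map_add, add_mul, Finset.sum_add_distrib]
    congr 1
    rw [Finset.sum_eq_single ∅]
    · rw [if_pos rfl, Finset.prod_empty, mul_one]
      have : (C (c j) : PS k g) = algebraMap k _ (c j) := rfl
      rw [this, AlgHom.commutes]
    · intro V _ hV
      rw [if_neg hV, map_zero, zero_mul]
    · intro hh; exact absurd (Finset.mem_univ _) hh
  rw [h4, mul_add, smul_eq_C_mul, mul_comm (C (c j))]

/-- invariants in the fixed ideal are traces -/
theorem Inv.trace (h : Inv σ) {f : PS k g} (hf : σ f = f) (hI : f ∈ fI σ) :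
    ∃ u, f = de σ u := by
  obtain ⟨d, e, _, he, hm⟩ := h.main
  obtain ⟨c, u, hcu⟩ := hm f hf
  refine ⟨u, ?_⟩
  have h1 : ∑ j, c j • e j ∈ fI σ := by
    have : ∑ j, c j • e j = f - de σ u := by rw [hcu]; ring
    rw [this]
    exact Ideal.sub_mem _ hI (h.de_mem u)
  rw [hcu]
  simp [he c h1]

/-- every invariant is `φ(c) + δ u` -/
theorem Inv.inv_eq (h : Inv σ) {f : PS k g} (hf : σ f = f) :
    ∃ c u, f = ph h c + de σ u := by
  obtain ⟨d, e, he, _, hm⟩ := h.main
  obtain ⟨c, u, hcu⟩ := hm f hf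
  choose ε hε using he
  refine ⟨∑ j, c j • ε j, u, ?_⟩
  rw [hcu, map_sum]
  simp only [map_smul, ← hε]

end

end R863K
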