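import Pool.Agent.R863.Kum.Main3

/-! Involutions of `k[[X_1..X_g]]` in characteristic 2: the cotangent space of the invariants. -/

set_option linter.unusedSectionVars false

namespace R863K

open MvPowerSeries IsLocalRing

variable {k : Type*} [Field k] {g : ℕ}

noncomputable section

variable {σ : PS k g →ₐ[k] PS k g} [CharP k 2]

theorem X_mem_m (i : Fin g) : (X i : PS k g) ∈ maximalIdeal (PS k g) := (mem_m_iff _).2 (by simp)

theorem xS_mem_m {U : Finset (Fin g)} (hU : U ≠ ∅) : (xS U : PS k g) ∈ maximalIdeal (PS k g) := by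
  obtain ⟨i, hi⟩ := Finset.nonempty_iff_ne_empty.2 hU
  rw [← xS_erase hi]
  exact Ideal.mul_mem_right _ _ (X_mem_m i)

theorem Inv.fI_le_sq_m (h : Inv σ) : fI σ ≤ maximalIdeal (PS k g) ^ 2 := by
  rw [Ideal.span_le]
  rintro _ ⟨i, rfl⟩
  exact h.aa_sq i

theorem erase_ne {U : Finset (Fin g)} {i : Fin g} (hi : i ∈ U) (h : 1 < U.card) :
    U.erase i ≠ ∅ := by
  intro h2
  have := Finset.card_erase_of_mem hi
  rw [h2] at this
  simp at this
  omega

theorem Inv.de_xS_mem (h : Inv σ) {U : Finset (Fin g)} (hU : 1 < U.card) :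
    de σ (xS U) ∈ maximalIdeal (PS k g) * fI σ := by
  obtain ⟨w, hw, he⟩ := h.dx U
  rw [he]
  refine Ideal.sum_mem _ fun i _ => ?_
  rw [mul_comm (aa σ i)]
  refine Ideal.mul_mem_mul (Ideal.add_mem _ ?_ (h.fI_le (hw i))) (Ideal.subset_span ⟨i, rfl⟩)
  split_ifs with hi
  · exact xS_mem_m (erase_ne hi hU)
  · exact Ideal.zero_mem _

theorem Inv.mfI_le (h : Inv σ) :
    maximalIdeal (PS k g) * fI σ ≤ maximalIdeal (PS k g) ^ 3 := by
  have : maximalIdeal (PS k g) ^ 3 = maximalIdeal (PS k g) * maximalIdeal (PS k g) ^ 2 := by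
    rw [← pow_succ']
  rw [this]
  exact Ideal.mul_mono_right h.fI_le_sq_m

theorem nn_mem_sq (h : Inv σ) (i : Fin g) : nn σ i ∈ maximalIdeal (PS k g) ^ 2 := by
  rw [nn, pow_two]
  exact Ideal.mul_mem_mul (X_mem_m i) ((mem_m_iff _).2 (h.sX_cc i))

variable [PerfectRing k 2]

theorem Inv.aa_indep (h : Inv σ) (κ : Fin g → k)
    (hκ : ∑ l, κ l • aa σ l ∈ maximalIdeal (PS k g) * fI σ) (l : Fin g) : κ l = 0 := by
  obtain ⟨r, hr, he⟩ := mem_mul_span _ _ hκ
  have h1 : ∑ l, aa σ l * (C (κ l) - r l) = 0 := by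
    simp only [mul_sub, Finset.sum_sub_distrib, sub_eq_zero]
    have h2 : ∑ l, aa σ l * C (κ l) = ∑ l, κ l • aa σ l := by
      refine Finset.sum_congr rfl fun l _ => ?_
      rw [smul_eq_C_mul, mul_comm]
    rw [h2, he]
    refine Finset.sum_congr rfl fun l _ => mul_comm _ _
  have h2 := h.fI_le (h.qr _ h1 l)
  have h3 := Ideal.add_mem _ h2 (hr l)
  rw [sub_add_cancel, mem_m_iff] at h3
  simpa using h3

theorem exists_X_sum {c : PS k g} (hc : constantCoeff c = 0) :
    ∃ r : Fin g → PS k g, c = ∑ i, X i * r i := by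
  have := (mem_m_iff c).2 hc
  rw [m_eq] at this
  obtain ⟨r, hr⟩ := Ideal.mem_span_range_iff_exists_fun.1 this
  refine ⟨r, ?_⟩
  rw [← hr]
  exact Finset.sum_congr rfl fun i _ => mul_comm _ _

theorem ph_sum (h : Inv σ) (r : Fin g → PS k g) :
    ph h (∑ i, X i * r i) = ∑ i, nn σ i * ph h (r i) := by
  rw [map_sum]
  refine Finset.sum_congr rfl fun i _ => ?_
  rw [map_mul, ph_X]

theorem Inv.F1 (h : Inv σ) {f : PS k g} (hf : σ f = f) (hm : constantCoeff f = 0) :
    ∃ (r : Fin g → PS k g) (u : PS k g), f = ∑ i, nn σ i * ph h (r i) + de σ u := by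
  obtain ⟨c, u, rfl⟩ := h.inv_eq hf
  have h1 : constantCoeff (de σ u) = 0 := (mem_m_iff _).1 (h.fI_le (h.de_mem u))
  rw [map_add, h1, add_zero, ph_cc] at hm
  obtain ⟨r, rfl⟩ := exists_X_sum hm
  exact ⟨r, u, by rw [ph_sum]⟩

theorem Inv.inv_mem_nI (h : Inv σ) {f : PS k g} (hf : σ f = f) (hm : constantCoeff f = 0) :
    f ∈ nI σ := by
  obtain ⟨r, u, rfl⟩ := h.F1 hf hm
  refine Ideal.add_mem _ (Ideal.sum_mem _ fun i _ => ?_) (h.fI_le_nI (h.de_mem u))
  exact Ideal.mul_mem_right _ _ (Ideal.subset_span ⟨i, rfl⟩)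

/-! ### The `x_∅`-component of `m I` -/

/-- the `x_∅`-component lies in `∑ n_i (N ∩ I)` -/
def Q (h : Inv σ) (y : PS k g) : Prop :=
  ∃ (η : Fin g → PS k g) (c : MM k g), (∀ i, ph h (η i) ∈ fI σ) ∧
    y = ph h (∑ i, X i * η i) + Xh (fun U => ph h (if U = ∅ then 0 else c U))

theorem Q_add (h : Inv σ) {y y' : PS k g} (hy : Q h y) (hy' : Q h y') : Q h (y + y') := by
  obtain ⟨η, c, h1, h2⟩ := hy
  obtain ⟨η', c', h1', h2'⟩ := hy'
  refine ⟨fun i => η i + η' i, fun U => c U + c' U, fun i => ?_, ?_⟩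
  · rw [map_add]; exact Ideal.add_mem _ (h1 i) (h1' i)
  · rw [h2, h2']
    have e1 : Xh (fun U => ph h (if U = ∅ then 0 else c U + c' U)) =
        Xh (fun U => ph h (if U = ∅ then 0 else c U)) +
        Xh (fun U => ph h (if U = ∅ then 0 else c' U)) := by
      rw [← Xh_add]
      congr 1
      funext U
      split_ifs <;> simp
    rw [e1]
    simp only [mul_add, Finset.sum_add_distrib, map_add]
    ring

theorem Q_zero (h : Inv σ) : Q h 0 := by
  refine ⟨fun _ => 0, fun _ => 0, by simp, ?_⟩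
  simp [Xh]

theorem Q_sum (h : Inv σ) {ι : Type*} (T : Finset ι) (f : ι → PS k g)
    (hf : ∀ i ∈ T, Q h (f i)) : Q h (∑ i ∈ T, f i) := by
  classical
  induction T using Finset.induction_on with
  | empty => rw [Finset.sum_empty]; exact Q_zero h
  | insert i T hi ih =>
    rw [Finset.sum_insert hi]
    exact Q_add h (hf i (Finset.mem_insert_self _ _))
      (ih fun j hj => hf j (Finset.mem_insert_of_mem hj))

theorem Q1 (h : Inv σ) (t : PS k g) {V : Finset (Fin g)} (hV : V ≠ ∅) : Q h (ph h t * xS V) := by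
  refine ⟨fun _ => 0, fun U => if U = V then t else 0, by simp, ?_⟩
  have : Xh (fun U => ph h (if U = ∅ then 0 else if U = V then t else 0)) = ph h t * xS V := by
    rw [Xh, Finset.sum_eq_single V]
    · simp [hV]
    · intro U _ hU
      simp [hU]
    · intro hh; exact absurd (Finset.mem_univ _) hh
  rw [this]
  simp

theorem Q2 (h : Inv σ) (t : PS k g) (ht : ph h t ∈ fI σ) (i : Fin g) (V : Finset (Fin g)) :
    Q h (nn σ i * ph h t * xS V) := by
  by_cases hV : V = ∅
  · subst hV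
    refine ⟨fun l => if l = i then t else 0, fun _ => 0, ?_, ?_⟩
    · intro l
      show ph h (if l = i then t else 0) ∈ fI σ
      split_ifs
      · exact ht
      · simp
    · rw [ph_sum, xS_empty, mul_one]
      have : Xh (fun U => ph h (if U = ∅ then 0 else 0)) = 0 := by simp [Xh]
      rw [this, add_zero, Finset.sum_eq_single i]
      · simp
      · intro l _ hl; simp [hl]
      · intro hh; exact absurd (Finset.mem_univ _) hh
  · have := Q1 h (X i * t) hV
    rwa [map_mul, ph_X] at this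

theorem Q3 (h : Inv σ) (t : PS k g) (ht : ph h t ∈ fI σ) {y : PS k g} (hy : y ∈ fI σ) :
    Q h (ph h t * y) := by
  obtain ⟨d, rfl⟩ := h.expand y
  have hd := h.dec _ (fun U => s_ph h _) hy
  rw [Xh, Finset.mul_sum]
  refine Q_sum h _ _ fun V _ => ?_
  by_cases hV : V = ∅
  · subst hV
    have h0 : constantCoeff (d ∅) = 0 := by
      rw [← ph_cc h]; exact (mem_m_iff _).1 (h.fI_le (hd ∅))
    obtain ⟨r, hr⟩ := exists_X_sum h0
    rw [hr, ph_sum, Finset.sum_mul, Finset.mul_sum]
    refine Q_sum h _ _ fun i _ => ?_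
    have e1 : ph h t * (nn σ i * ph h (r i) * xS ∅) = nn σ i * ph h (t * r i) * xS ∅ := by
      rw [map_mul]; ring
    rw [e1]
    apply Q2
    rw [map_mul]
    exact Ideal.mul_mem_right _ _ ht
  · have := Q1 h (t * d V) hV
    rw [map_mul] at this
    rwa [← mul_assoc]

theorem Q_mfI (h : Inv σ) {y : PS k g} (hy : y ∈ maximalIdeal (PS k g) * fI σ) : Q h y := by
  rw [mul_comm, m_eq] at hy
  obtain ⟨r, hr, rfl⟩ := mem_mul_span _ _ hy
  refine Q_sum h _ _ fun i _ => ?_
  obtain ⟨c, hc⟩ := h.expand (r i)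
  have hd := h.dec _ (fun U => s_ph h (c U)) (by rw [← hc]; exact hr i)
  rw [hc, Xh, Finset.sum_mul]
  refine Q_sum h _ _ fun U _ => ?_
  by_cases hi : i ∈ U
  · have e1 : ph h (c U) * xS U * X i =
        nn σ i * ph h (c U) * xS (U.erase i) + ph h (c U) * (aa σ i * xS U) := by
      have e2 : nn σ i * xS (U.erase i) = xS U * X i + aa σ i * xS U := by
        rw [nn_eq, ← xS_erase hi]; ring
      have e3 : xS U * X i = nn σ i * xS (U.erase i) + aa σ i * xS U := by
        rw [e2, add_assoc, two0, add_zero]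
      rw [mul_assoc, e3]; ring
    rw [e1]
    refine Q_add h (Q2 h _ (hd U) i _) (Q3 h _ (hd U) ?_)
    exact Ideal.mul_mem_right _ _ (Ideal.subset_span ⟨i, rfl⟩)
  · have e1 : ph h (c U) * xS U * X i = ph h (c U) * xS (insert i U) := by
      rw [xS_insert hi]; ring
    rw [e1]
    exact Q1 h _ (Finset.insert_ne_empty _ _)

theorem Inv.comp0 (h : Inv σ) (c : PS k g) (hc : ph h c ∈ maximalIdeal (PS k g) * fI σ) :
    ∃ η : Fin g → PS k g, (∀ i, ph h (η i) ∈ fI σ) ∧ ph h c = ∑ i, nn σ i * ph h (η i) := by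
  obtain ⟨η, c', h1, h2⟩ := Q_mfI h hc
  refine ⟨η, h1, ?_⟩
  rw [← ph_sum]
  have key : ∀ a b : PS k g, ∀ c' : MM k g,
      Xh (fun U => ph h (if U = ∅ then a else c' U)) =
        ph h a + Xh (fun U => ph h (if U = ∅ then 0 else c' U)) := by
    intro a b c'
    have e1 := Finset.add_sum_erase Finset.univ
      (fun U => ph h (if U = ∅ then a else c' U) * xS U) (Finset.mem_univ (∅ : Finset (Fin g)))
    have e2 := Finset.add_sum_erase Finset.univ
      (fun U => ph h (if U = ∅ then 0 else c' U) * xS U) (Finset.mem_univ (∅ : Finset (Fin g)))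
    rw [Xh, Xh, ← e1, ← e2]
    simp only [if_true, xS_empty, mul_one, map_zero, zero_add]
    congr 1
    refine Finset.sum_congr rfl fun U hU => ?_
    rw [if_neg (Finset.mem_erase.1 hU).1, if_neg (Finset.mem_erase.1 hU).1]
  have e1 := key c 0 (fun _ => 0)
  have e2 : Xh (fun U => ph h (if U = ∅ then (0 : PS k g) else 0)) = 0 := by simp [Xh]
  rw [e2, add_zero] at e1
  have e3 := key (∑ i, X i * η i) 0 c'
  rw [← h2, ← e1] at e3
  have e4 := congrFun (h.expand_unique _ _ e3) ∅
  simp only [if_true] at e4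
  rw [e4]

/-- the candidate minimal generators -/
def ww (σ : PS k g →ₐ[k] PS k g) (U : Finset (Fin g)) : PS k g :=
  if U.card = 1 then ∏ i ∈ U, nn σ i else de σ (xS U)

theorem ww_one (i : Fin g) : ww σ {i} = nn σ i := by simp [ww]

theorem ww_two {U : Finset (Fin g)} (hU : 1 < U.card) : ww σ U = de σ (xS U) := by
  rw [ww, if_neg (by omega)]

theorem Inv.s_ww (h : Inv σ) (U : Finset (Fin g)) : σ (ww σ U) = ww σ U := by
  rw [ww]
  split_ifs
  · rw [map_prod]
    exact Finset.prod_congr rfl fun i _ => h.s_nn i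
  · exact h.s_de _

theorem card_cases (U : Finset (Fin g)) : U = ∅ ∨ (∃ i, U = {i}) ∨ 1 < U.card := by
  rcases Nat.lt_trichotomy U.card 1 with h | h | h
  · left; rw [← Finset.card_eq_zero]; omega
  · right; left; exact Finset.card_eq_one.1 h
  · right; right; exact h

theorem coeff_two_nn (h : Inv σ) (i l : Fin g) :
    coeff (Finsupp.single i 2) (nn σ l) = if l = i then 1 else 0 := by
  classical
  have h1 : coeff (Finsupp.single i 2) (aa σ l * X l) = 0 := by
    apply coeff_of_mem_pow (N := 3)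
    · rw [pow_succ]
      exact Ideal.mul_mem_mul (h.aa_sq l) (X_mem_m l)
    · simp
  rw [nn_eq, map_add, h1, add_zero, coeff_X_pow]
  by_cases hl : l = i
  · subst hl; simp
  · rw [if_neg hl, if_neg]
    intro h2
    have := DFunLike.congr_fun h2 i
    simp [Finsupp.single_apply, hl] at this

theorem Inv.indep1 (h : Inv σ) (κ : Finset (Fin g) → k) (z : Fin g → PS k g)
    (hz0 : ∀ i, constantCoeff (z i) = 0)
    (he : ∑ U ∈ Finset.univ.erase ∅, κ U • ww σ U = ∑ i, nn σ i * z i) (i : Fin g) :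
    κ {i} = 0 := by
  classical
  have h1 := congrArg (coeff (Finsupp.single i 2)) he
  rw [map_sum, map_sum] at h1
  have h2 : ∀ l, coeff (Finsupp.single i 2) (nn σ l * z l) = 0 := by
    intro l
    apply coeff_of_mem_pow (N := 3)
    · rw [pow_succ]
      exact Ideal.mul_mem_mul (nn_mem_sq h l) ((mem_m_iff _).2 (hz0 l))
    · simp
  simp only [h2, Finset.sum_const_zero, map_smul] at h1
  rw [Finset.sum_eq_single {i}] at h1
  · rw [ww_one, coeff_two_nn h, if_pos rfl] at h1
    simpa using h1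
  · intro U hU hne
    rcases card_cases U with h0 | ⟨l, rfl⟩ | h3
    · exact absurd h0 (Finset.mem_erase.1 hU).1
    · rw [ww_one, coeff_two_nn h, if_neg]
      · simp
      · rintro rfl; exact hne rfl
    · rw [ww_two h3, coeff_of_mem_pow (h.mfI_le (h.de_xS_mem h3)), smul_zero]
      simp
  · intro hh
    exact absurd (Finset.mem_erase.2 ⟨Finset.singleton_ne_empty _, Finset.mem_univ _⟩) hh

theorem Inv.indep (h : Inv σ) (κ : Finset (Fin g) → k) (z : Fin g → PS k g)
    (hz : ∀ i, σ (z i) = z i) (hz0 : ∀ i, constantCoeff (z i) = 0)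
    (he : ∑ U ∈ Finset.univ.erase ∅, κ U • ww σ U = ∑ i, nn σ i * z i) (U) (hU : U ≠ ∅) :
    κ U = 0 := by
  classical
  have hk1 := h.indep1 κ z hz0 he
  rcases card_cases U with h0 | ⟨l, rfl⟩ | hU2
  · exact absurd h0 hU
  · exact hk1 l
  set u0 : PS k g := ∑ V, (if 1 < V.card then κ V else 0) • xS V with hu0
  have h1 : de σ u0 = ∑ i, nn σ i * z i := by
    rw [← he, hu0, map_sum]
    rw [← Finset.add_sum_erase _ _ (Finset.mem_univ (∅ : Finset (Fin g)))]
    have e0 : de σ ((if 1 < (∅ : Finset (Fin g)).card then κ ∅ else 0) • xS ∅) = 0 := by simp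
    rw [e0, zero_add]
    refine Finset.sum_congr rfl fun V hV => ?_
    rcases card_cases V with h0 | ⟨l, rfl⟩ | h3
    · exact absurd h0 (Finset.mem_erase.1 hV).1
    · rw [hk1 l]; simp
    · rw [if_pos h3, ww_two h3, de_apply, de_apply, map_smul, smul_add]
  choose ν v hν using fun i => h.inv_eq (hz i)
  have h2 : ph h (∑ i, X i * ν i) = de σ (u0 + ∑ i, nn σ i * v i) := by
    rw [map_add, h1, ph_sum, map_sum, ← Finset.sum_add_distrib]
    refine Finset.sum_congr rfl fun i _ => ?_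
    rw [de_mul_inv (h.s_nn i)]
    conv_rhs => rw [hν i]
    rw [mul_add, add_assoc, two0, add_zero]
  have h3 : ph h (∑ i, X i * ν i) ∈ maximalIdeal (PS k g) * fI σ := by
    rw [h2, map_add]
    refine Ideal.add_mem _ ?_ ?_
    · rw [hu0, map_sum]
      refine Ideal.sum_mem _ fun V _ => ?_
      split_ifs with h4
      · have : de σ (κ V • xS V) = C (κ V) * de σ (xS V) := by
          rw [de_apply, de_apply, map_smul, ← smul_add, smul_eq_C_mul]
        rw [this]
        exact Ideal.mul_mem_left _ _ (h.de_xS_mem h4)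
      · rw [zero_smul, map_zero]; exact Ideal.zero_mem _
    · rw [map_sum]
      refine Ideal.sum_mem _ fun i _ => ?_
      rw [de_mul_inv (h.s_nn i)]
      exact Ideal.mul_mem_mul ((mem_m_iff _).2 (h.nn_cc i)) (h.de_mem _)
  obtain ⟨η, h4, h5⟩ := h.comp0 _ h3
  choose v' hv' using fun i => h.trace (s_ph h (η i)) (h4 i)
  have h6 : de σ (u0 + ∑ i, nn σ i * v i + ∑ i, nn σ i * v' i) = 0 := by
    rw [map_add, ← h2, h5, map_sum]
    have : ∑ i, de σ (nn σ i * v' i) = ∑ i, nn σ i * ph h (η i) := by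
      refine Finset.sum_congr rfl fun i _ => ?_
      rw [de_mul_inv (h.s_nn i), hv']
    rw [this, two0]
  have h7 := inv_of_de h6
  set F := u0 + ∑ i, nn σ i * v i + ∑ i, nn σ i * v' i with hF
  have h8 : F - C (constantCoeff F) ∈ nI σ := by
    apply h.inv_mem_nI
    · rw [map_sub, h7]
      have : (C (constantCoeff F) : PS k g) = algebraMap k _ (constantCoeff F) := rfl
      rw [this, AlgHom.commutes]
    · simp
  have h9 : u0 - C (constantCoeff F) ∈ nI σ := by
    have e1 : u0 - C (constantCoeff F) = (F - C (constantCoeff F)) -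
        (∑ i, nn σ i * v i + ∑ i, nn σ i * v' i) := by rw [hF]; ring
    rw [e1]
    refine Ideal.sub_mem _ h8 (Ideal.add_mem _ ?_ ?_) <;>
    · refine Ideal.sum_mem _ fun i _ => Ideal.mul_mem_right _ _ (Ideal.subset_span ⟨i, rfl⟩)
  rw [h.nI_eq] at h9
  have h10 := coeff_sq h9 U
  rw [map_sub, hu0, map_sum] at h10
  simp only [map_smul, coeff_xS, smul_eq_mul] at h10
  rw [Finset.sum_eq_single U, if_pos hU2, if_pos rfl, coeff_C, if_neg, mul_one, sub_zero] at h10
  · exact h10
  · intro hh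
    obtain ⟨i, hi⟩ := Finset.nonempty_iff_ne_empty.2 hU
    have := DFunLike.congr_fun hh i
    rw [eU_apply, if_pos hi] at this
    simp at this
  · intro V _ hV
    rw [if_neg hV, mul_zero]
  · intro hh; exact absurd (Finset.mem_univ _) hh

end

end R863K
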